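import Pool.Agent.Lib.MP_06793c_ag.Defs

/-!
Comparison of ideals in large degrees; products of ideals.
-/

namespace MP_06793c_ag

open MvPolynomial

universe u

variable {k : Type u} [Field k]

private theorem Agr_le {F I : Ideal (S k)} {N M : ℕ} (h : F ⊓ mm k ^ N = I ⊓ mm k ^ N) (hNM : N ≤ M) :
    F ⊓ mm k ^ M = I ⊓ mm k ^ M := by
  have h1 : mm k ^ N ⊓ mm k ^ M = mm k ^ M := inf_eq_right.2 (Ideal.pow_le_pow_right hNM)
  rw [← h1, ← inf_assoc, h, inf_assoc]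

private theorem Agr_sup {F G I J : Ideal (S k)} {N : ℕ} (hF : F ⊓ mm k ^ N = I ⊓ mm k ^ N)
    (hG : G ⊓ mm k ^ N = J ⊓ mm k ^ N) (h : mm k ^ N ≤ F ⊔ G) : mm k ^ (2 * N) ≤ I ⊔ J := by
  calc mm k ^ (2 * N) = mm k ^ N * mm k ^ N := by rw [two_mul, pow_add]
    _ ≤ mm k ^ N * (F ⊔ G) := Ideal.mul_mono_right h
    _ = mm k ^ N * F ⊔ mm k ^ N * G := Ideal.mul_sup _ _ _
    _ ≤ (F ⊓ mm k ^ N) ⊔ (G ⊓ mm k ^ N) :=
        sup_le_sup (Ideal.mul_le_inf.trans (le_of_eq (inf_comm _ _))) (Ideal.mul_le_inf.trans (le_of_eq (inf_comm _ _)))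
    _ = (I ⊓ mm k ^ N) ⊔ (J ⊓ mm k ^ N) := by rw [hF, hG]
    _ ≤ I ⊔ J := sup_le_sup inf_le_left inf_le_left

theorem agree_mul {F G I J : Ideal (S k)} (hF : Agree k F I) (hG : Agree k G J)
    (h : Dis k I J) : Agree k (F * G) (I ⊓ J) := by
  obtain ⟨N1, h1⟩ := hF
  obtain ⟨N2, h2⟩ := hG
  obtain ⟨N3, h3⟩ := h
  set N := max N1 (max N2 N3) with hN
  have k1 : F ⊓ mm k ^ N = I ⊓ mm k ^ N := Agr_le h1 (le_max_left _ _)
  have k2 : G ⊓ mm k ^ N = J ⊓ mm k ^ N := Agr_le h2 ((le_max_left _ _).trans (le_max_right _ _))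
  have k3 : mm k ^ N ≤ I ⊔ J :=
    (Ideal.pow_le_pow_right ((le_max_right _ _).trans (le_max_right _ _))).trans h3
  have k4 : mm k ^ (2 * N) ≤ F ⊔ G := Agr_sup k1.symm k2.symm k3
  obtain ⟨c, hc⟩ := Ideal.exists_pow_inf_eq_pow_smul (mm k) (F ⊓ G : Ideal (S k))
  have hc2 := hc (c + 2 * N) (by omega)
  have k5 : mm k ^ (2 * N) * (F ⊓ G) ≤ F * G := by
    refine (Ideal.mul_mono_left k4).trans ?_
    rw [Ideal.sup_mul]
    refine sup_le (Ideal.mul_mono_right inf_le_right) ?_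
    rw [mul_comm F G]
    exact Ideal.mul_mono_right inf_le_left
  have k6 : mm k ^ (c + 2 * N) ⊓ (F ⊓ G) ≤ F * G := by
    have e1 : (mm k ^ (c + 2 * N) • (⊤ : Submodule (S k) (S k))) = mm k ^ (c + 2 * N) := by
      rw [smul_eq_mul, Ideal.mul_top]
    rw [e1, Nat.add_sub_cancel_left] at hc2
    refine (le_of_eq hc2).trans (le_trans ?_ k5)
    rw [smul_eq_mul]
    exact Ideal.mul_mono_right inf_le_right
  refine ⟨c + 2 * N, ?_⟩
  have l1 : F ⊓ mm k ^ (c + 2 * N) = I ⊓ mm k ^ (c + 2 * N) := Agr_le k1 (by omega)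
  have l2 : G ⊓ mm k ^ (c + 2 * N) = J ⊓ mm k ^ (c + 2 * N) := Agr_le k2 (by omega)
  have l3 : F ⊓ G ⊓ mm k ^ (c + 2 * N) = I ⊓ J ⊓ mm k ^ (c + 2 * N) := by
    rw [inf_inf_distrib_right, l1, l2, ← inf_inf_distrib_right]
  rw [← l3]
  refine le_antisymm (inf_le_inf_right _ Ideal.mul_le_inf) (le_inf ?_ inf_le_right)
  rw [inf_comm]
  exact k6

theorem dis_of_agree {F G I J : Ideal (S k)} (hF : Agree k F I) (hG : Agree k G J)
    (h : Dis k F G) : Dis k I J := by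
  obtain ⟨N1, h1⟩ := hF
  obtain ⟨N2, h2⟩ := hG
  obtain ⟨N3, h3⟩ := h
  exact ⟨2 * max N1 (max N2 N3), Agr_sup (Agr_le h1 (le_max_left _ _))
    (Agr_le h2 ((le_max_left _ _).trans (le_max_right _ _)))
    ((Ideal.pow_le_pow_right ((le_max_right _ _).trans (le_max_right _ _))).trans h3)⟩

theorem agree_refl (I : Ideal (S k)) : Agree k I I := ⟨0, rfl⟩

theorem agree_symm {I J : Ideal (S k)} (h : Agree k I J) : Agree k J I := by
  obtain ⟨N, hN⟩ := h
  exact ⟨N, hN.symm⟩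

theorem agree_trans {I J K : Ideal (S k)} (h : Agree k I J) (h' : Agree k J K) :
    Agree k I K := by
  obtain ⟨N1, h1⟩ := h
  obtain ⟨N2, h2⟩ := h'
  exact ⟨max N1 N2, (Agr_le h1 (le_max_left _ _)).trans (Agr_le h2 (le_max_right _ _))⟩

private theorem Agr_max {P : Ideal (S k)} (hP : P ≠ ⊤) (hm : mm k ≤ P) : P.IsMaximal := by
  rw [Ideal.isMaximal_iff]
  refine ⟨fun h => hP ((Ideal.eq_top_iff_one P).2 h), fun J x hPJ hx hxJ => ?_⟩
  have h1 : x - C (coeff 0 x) ∈ mm k := by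
    have h2 : x - C (coeff 0 x) ∈ idealOfVars (Fin 4) k ^ 1 := by
      rw [mem_pow_idealOfVars_iff']
      intro y hy
      have hy0 : y = 0 := by
        rw [← Finsupp.degree_eq_zero_iff]
        omega
      rw [hy0, coeff_sub, coeff_zero_C, sub_self]
    rwa [pow_one] at h2
  have h3 : C (coeff 0 x) ∈ J := by
    have h4 := J.sub_mem hxJ (hPJ (hm h1))
    rwa [sub_sub_cancel] at h4
  have h5 : coeff 0 x ≠ 0 := by
    intro h6
    apply hx
    rw [h6, C_0, sub_zero] at h1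
    exact hm h1
  have h7 := J.mul_mem_left (C (coeff 0 x)⁻¹) h3
  rwa [← C_mul, inv_mul_cancel₀ h5, C_1] at h7

private theorem Agr_mem {d : ℕ} {g : ℤ} {I J : Ideal (S k)} (hJ : IsCurve k d g J) {N : ℕ}
    (h : I ⊓ mm k ^ N = J ⊓ mm k ^ N) : I ≤ J := by
  intro x hx
  by_contra hxJ
  have h1 : Ideal.Quotient.mk J x ≠ 0 := by
    rw [Ne, Ideal.Quotient.eq_zero_iff_mem]
    exact hxJ
  obtain ⟨P, hP, hle⟩ := exists_le_isAssociatedPrime_of_isNoetherianRing (S k) (Ideal.Quotient.mk J x) h1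
  have h2 : mm k ^ N ≤ P := by
    intro a ha
    apply hle
    rw [Submodule.mem_colon_singleton, Submodule.mem_bot]
    have h3 : a * x ∈ J := by
      have h4 : a * x ∈ I ⊓ mm k ^ N := ⟨I.mul_mem_left a hx, Ideal.mul_mem_right x _ ha⟩
      rw [h] at h4
      exact h4.1
    have h5 : a • Ideal.Quotient.mk J x = Ideal.Quotient.mk J (a * x) := rfl
    rw [h5, Ideal.Quotient.eq_zero_iff_mem]
    exact h3
  have hPp : P.IsPrime := hP.isPrime
  have h6 : mm k ≤ P := Ideal.IsPrime.le_of_pow_le h2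
  have h7 := Agr_max hPp.ne_top h6
  have h8 := ringKrullDim_eq_zero_of_isField ((Ideal.Quotient.maximal_ideal_iff_isField_quotient P).1 h7)
  have h9 := hJ.ass P hP
  rw [h8] at h9
  exact absurd h9 (by norm_num)

/-- Two saturated ideals which agree in large degrees are equal. -/
theorem agree_eq {d d' : ℕ} {g g' : ℤ} {I J : Ideal (S k)} (hI : IsCurve k d g I)
    (hJ : IsCurve k d' g' J) (h : Agree k I J) : I = J := by
  obtain ⟨N, hN⟩ := h
  exact le_antisymm (Agr_mem hJ hN) (Agr_mem hI hN.symm)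

end MP_06793c_ag
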