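import Pool.Agent.Lib.MP_06793c_ag.Defs

/-!
Openness of disjointness (one determinant).
-/

namespace MP_06793c_ag

open MvPolynomial

universe u

variable {k : Type u} [Field k]

/-- the exponents of degree `N` -/
private abbrev Ix (N : ℕ) : Type := {ν : Fin 4 →₀ ℕ // ν.degree = N}

private theorem finite_Ix (N : ℕ) : Finite (Ix N) :=
  (Finsupp.finite_of_degree_eq (σ := Fin 4) N).to_subtype

/-- the monomials come from homogeneous elements of `F` -/
private theorem lift_mon {A : Type u} [CommRing A] [Algebra k A] (F : Ideal (S A)) (hF : IsHom F)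
    (φ : A →ₐ[k] k) (N : ℕ) (hN : mm k ^ N ≤ fib φ F) (μ : Ix N) :
    ∃ P ∈ F, (∀ d : Fin 4 →₀ ℕ, d.degree ≠ N → coeff d P = 0) ∧
      ∀ d : Fin 4 →₀ ℕ, φ (coeff d P) = if μ.1 = d then 1 else 0 := by
  classical
  have hsurj : Function.Surjective (MvPolynomial.map (σ := Fin 4) (φ : A →+* k)) := by
    refine MvPolynomial.map_surjective _ ?_
    intro x
    exact ⟨algebraMap k A x, φ.commutes x⟩
  have h1 : monomial μ.1 (1 : k) ∈ mm k ^ N :=
    (monomial_mem_pow_idealOfVars_iff N μ.1 one_ne_zero).2 μ.2.ge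
  obtain ⟨P, hP, hPm⟩ := (Ideal.mem_map_iff_of_surjective _ hsurj).1 (hN h1)
  have h2 : ∀ d : Fin 4 →₀ ℕ, φ (coeff d P) = if μ.1 = d then 1 else 0 := by
    intro d
    have h3 : coeff d (MvPolynomial.map (φ : A →+* k) P) = φ (coeff d P) := coeff_map _ _ _
    rw [← h3, hPm, coeff_monomial]
  refine ⟨homogeneousComponent N P, hF P hP N, ?_, ?_⟩
  · intro d hd
    rw [coeff_homogeneousComponent, if_neg hd]
  · intro d
    rw [coeff_homogeneousComponent]
    by_cases hd : d.degree = N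
    · rw [if_pos hd]
      exact h2 d
    · rw [if_neg hd, map_zero, if_neg]
      intro h
      exact hd (h ▸ μ.2)

theorem open_dis {A : Type u} [CommRing A] [Algebra k A] (F : Ideal (S A)) (hF : IsHom F)
    (φ : A →ₐ[k] k) (N : ℕ) (hN : mm k ^ N ≤ fib φ F) :
    ∃ f : A, φ f ≠ 0 ∧ ∀ ψ : A →ₐ[k] k, ψ f ≠ 0 → mm k ^ N ≤ fib ψ F := by
  classical
  have := finite_Ix N
  let _ : Fintype (Ix N) := Fintype.ofFinite _
  choose P hPF hP0 hPφ using lift_mon F hF φ N hN
  obtain ⟨c, hc⟩ : ∃ c : Matrix (Ix N) (Ix N) A, c = Matrix.of fun μ ν => coeff ν.1 (P μ) :=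
    ⟨_, rfl⟩
  refine ⟨c.det, ?_, fun ψ hψ => ?_⟩
  · have h1 : φ c.det = (c.map φ).det := by
      rw [AlgHom.map_det]
      rfl
    have h2 : c.map φ = 1 := by
      ext μ ν
      rw [Matrix.map_apply, hc, Matrix.of_apply, hPφ, Matrix.one_apply]
      by_cases h : μ = ν
      · rw [if_pos h, if_pos (congrArg Subtype.val h)]
      · rw [if_neg h, if_neg fun h' => h (Subtype.ext h')]
    rw [h1, h2, Matrix.det_one]
    exact one_ne_zero
  · have h1 : ψ c.det = (c.map ψ).det := by
      rw [AlgHom.map_det]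
      rfl
    rw [h1] at hψ
    have h2 : (c.map ψ)⁻¹ * c.map ψ = 1 := Matrix.nonsing_inv_mul _ (isUnit_iff_ne_zero.2 hψ)
    have h3 : ∀ ν : Ix N, monomial ν.1 (1 : k) ∈ fib ψ F := by
      intro ν
      have h4 : monomial ν.1 (1 : k) = ∑ μ : Ix N, C ((c.map ψ)⁻¹ ν μ) *
          MvPolynomial.map (ψ : A →+* k) (P μ) := by
        ext d
        rw [coeff_sum, coeff_monomial]
        have h5 : ∀ μ : Ix N, coeff d (C ((c.map ψ)⁻¹ ν μ) * MvPolynomial.map (ψ : A →+* k) (P μ)) =
            (c.map ψ)⁻¹ ν μ * ψ (coeff d (P μ)) := by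
          intro μ
          rw [coeff_C_mul, coeff_map]
          rfl
        rw [Finset.sum_congr rfl fun μ _ => h5 μ]
        by_cases hd : d.degree = N
        · have h6 := congrFun (congrFun h2 ν) ⟨d, hd⟩
          rw [Matrix.mul_apply] at h6
          have h7 : ∀ μ : Ix N, (c.map ψ) μ ⟨d, hd⟩ = ψ (coeff d (P μ)) := by
            intro μ
            rw [Matrix.map_apply, hc, Matrix.of_apply]
          rw [Finset.sum_congr rfl fun μ _ => by rw [h7 μ]] at h6
          rw [h6, Matrix.one_apply]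
          by_cases h : ν.1 = d
          · rw [if_pos h, if_pos (Subtype.ext h)]
          · rw [if_neg h, if_neg fun h' => h (congrArg Subtype.val h')]
        · rw [if_neg, Finset.sum_eq_zero]
          · intro μ _
            rw [hP0 μ d hd, map_zero, mul_zero]
          · intro h
            exact hd (h ▸ ν.2)
      rw [h4]
      exact Ideal.sum_mem _ fun μ _ => Ideal.mul_mem_left _ _ (Ideal.mem_map_of_mem _ (hPF μ))
    rw [show mm k ^ N = Ideal.span ((monomial · (1 : k)) '' (Finsupp.degree ⁻¹' {N})) from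
      pow_idealOfVars_eq_span N, Ideal.span_le]
    rintro _ ⟨ν, hν, rfl⟩
    exact h3 ⟨ν, hν⟩

end MP_06793c_ag
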