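import Pool.Agent.Lib.MP_06793c_ag.Move
import Pool.Agent.Lib.MP_06793c_ag.Open

/-!
General position.
-/

namespace MP_06793c_ag

open MvPolynomial

universe u

variable {k : Type u} [Field k]

/-- The diagonal matrix with the entries `c, c, 1, 1`. -/
private def GP_D {A : Type u} [CommRing A] (c : A) : Matrix (Fin 4) (Fin 4) A := Matrix.diagonal ![c, c, 1, 1]

private theorem GP_sub {A : Type u} [CommRing A] [Algebra k A] (c : A) (i : Fin 4) :
    sub (GP_D c) (X i : S k) = C (![c, c, 1, 1] i) * X i := by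
  unfold sub GP_D
  rw [coe_eval₂Hom, eval₂_X, Finset.sum_eq_single i]
  · rw [Matrix.diagonal_apply_eq]
  · intro j _ hj
    rw [Matrix.diagonal_apply_ne _ (Ne.symm hj), map_zero, zero_mul]
  · intro h
    exact absurd (Finset.mem_univ i) h

private theorem GP_pow {J : Ideal (S k)} {N : ℕ} (h : mm k ^ N ≤ J ⊔ Ideal.span {X 0, X 1}) (i : Fin 4)
    (hi : (![0, 0, 1, 1] : Fin 4 → k) i = 1) : (X i : S k) ^ N ∈ tr (GP_D (0 : k)) J := by
  have h1 : (X i : S k) ^ N ∈ J ⊔ Ideal.span {X 0, X 1} := by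
    refine h (Ideal.pow_mem_pow ?_ N)
    exact Ideal.subset_span ⟨i, rfl⟩
  obtain ⟨f, hf, g, hg, hfg⟩ := Submodule.mem_sup.1 h1
  have hg0 : sub (GP_D (0 : k)) g = 0 := by
    have h2 : Ideal.span {X 0, X 1} ≤ RingHom.ker (sub (k := k) (GP_D (0 : k))) := by
      rw [Ideal.span_le]
      rintro x (rfl | rfl)
      · show sub (GP_D (0 : k)) (X 0) = 0
        rw [GP_sub]
        simp
      · show sub (GP_D (0 : k)) (X 1) = 0
        rw [GP_sub]
        simp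
    exact h2 hg
  have h3 : sub (GP_D (0 : k)) ((X i : S k) ^ N) = (X i : S k) ^ N := by
    rw [map_pow, GP_sub, hi, map_one, one_mul]
  rw [← h3, ← hfg, map_add, hg0, add_zero]
  exact Ideal.mem_map_of_mem _ hf

private theorem GP_zero {I J : Ideal (S k)} {N₁ N₂ : ℕ} (hI : mm k ^ N₁ ≤ I ⊔ Ideal.span {X 2, X 3})
    (hJ : mm k ^ N₂ ≤ J ⊔ Ideal.span {X 0, X 1}) : ∃ N : ℕ, mm k ^ N ≤ I ⊔ tr (GP_D (0 : k)) J := by
  have h1 : I ⊔ Ideal.span {X 2, X 3} ≤ (I ⊔ tr (GP_D (0 : k)) J).radical := by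
    refine sup_le (le_sup_left.trans Ideal.le_radical) ?_
    rw [Ideal.span_le]
    rintro x (rfl | rfl)
    · exact ⟨N₂, (le_sup_right : tr (GP_D (0 : k)) J ≤ I ⊔ tr (GP_D (0 : k)) J) (GP_pow hJ 2 rfl)⟩
    · exact ⟨N₂, (le_sup_right : tr (GP_D (0 : k)) J ≤ I ⊔ tr (GP_D (0 : k)) J) (GP_pow hJ 3 rfl)⟩
  have h2 : mm k ≤ (I ⊔ tr (GP_D (0 : k)) J).radical := by
    intro x hx
    have h3 := h1 (hI (Ideal.pow_mem_pow hx N₁))
    rw [← Ideal.radical_idem]
    exact ⟨N₁, h3⟩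
  exact Ideal.exists_pow_le_of_le_radical_of_fg h2 (mm k).fg_of_isNoetherianRing

theorem exists_dis [Infinite k] {d d' : ℕ} {g g' : ℤ} {I J : Ideal (S k)}
    (hI : IsCurve k d g I) (hJ : IsCurve k d' g' J) :
    ∃ M : Matrix (Fin 4) (Fin 4) k, IsUnit M.det ∧ Dis k I (tr M J) := by
  obtain ⟨M₁, hM₁, N₁, h₁⟩ := exists_line hI 2 3 (by decide)
  obtain ⟨M₂, hM₂, N₂, h₂⟩ := exists_line hJ 0 1 (by decide)
  obtain ⟨F, hF⟩ : ∃ F : Ideal (S (Polynomial k)),
      F = (tr M₁ I).map (MvPolynomial.map (algebraMap k (Polynomial k))) ⊔ tr (GP_D Polynomial.X) (tr M₂ J) := ⟨_, rfl⟩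
  have hFh : IsHom F := by
    rw [hF]
    exact isHom_sup (isHom_map _ (isHom_tr M₁ hI.hom)) (isHom_tr _ (isHom_tr M₂ hJ.hom))
  have hfib : ∀ c : k, fib (Polynomial.aeval c) F = tr M₁ I ⊔ tr (GP_D c) (tr M₂ J) := by
    intro c
    rw [hF, fib_sup, fib_const, fib_tr]
    have e : (GP_D (Polynomial.X : Polynomial k)).map (Polynomial.aeval c : Polynomial k →ₐ[k] k) = GP_D c := by
      unfold GP_D
      rw [Matrix.diagonal_map (map_zero _)]
      congr 1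
      funext i
      fin_cases i <;> simp
    rw [e]
  obtain ⟨N, hN⟩ := GP_zero h₁ h₂
  rw [← hfib 0] at hN
  obtain ⟨f, hf0, hf⟩ := open_dis F hFh _ N hN
  obtain ⟨c, hc, hfc⟩ : ∃ c : k, c ≠ 0 ∧ (Polynomial.aeval c f : k) ≠ 0 := by
    by_contra hcon
    push Not at hcon
    have h3 : Polynomial.X * f = 0 := by
      refine Polynomial.funext fun c => ?_
      rw [Polynomial.eval_mul, Polynomial.eval_X, Polynomial.eval_zero]
      by_cases hc : c = 0
      · rw [hc, zero_mul]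
      · have h4 := hcon c hc
        rw [Polynomial.coe_aeval_eq_eval] at h4
        rw [h4, mul_zero]
    have h5 : f = 0 := (mul_eq_zero.1 h3).resolve_left Polynomial.X_ne_zero
    rw [h5, map_zero] at hf0
    exact hf0 rfl
  have h6 := hf (Polynomial.aeval c) hfc
  rw [hfib c] at h6
  have hinv : IsUnit (M₁⁻¹).det := by
    rw [Matrix.det_nonsing_inv]
    exact hM₁.ringInverse
  have h7 : Dis k (tr M₁⁻¹ (tr M₁ I)) (tr M₁⁻¹ (tr (GP_D c) (tr M₂ J))) := dis_tr M₁⁻¹ hinv ⟨N, h6⟩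
  rw [tr_tr, Matrix.mul_nonsing_inv _ hM₁, tr_one, tr_tr, tr_tr] at h7
  refine ⟨_, ?_, h7⟩
  rw [Matrix.det_mul, Matrix.det_mul]
  refine (hM₂.mul ((isUnit_iff_ne_zero.2 ?_).mul hinv))
  unfold GP_D
  rw [Matrix.det_diagonal, Fin.prod_univ_four]
  simpa using hc

end MP_06793c_ag
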