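import Pool.Agent.Lib.MP_06793c_ag.Two
import Pool.Agent.Lib.MP_06793c_ag.GP

/-!
Disjoint unions are well defined on connected components.
-/

namespace MP_06793c_ag

open MvPolynomial

universe u

variable {k : Type u} [Field k]

theorem dis_symm {I J : Ideal (S k)} (h : Dis k I J) : Dis k J I := by
  obtain ⟨N, hN⟩ := h
  exact ⟨N, by rwa [sup_comm]⟩

/-- Moving the first curve in a chain of families, the second one by translations. -/
theorem chain_left [IsAlgClosed k] {d₁ d₂ : ℕ} {g₁ g₂ : ℤ} {I I' J : Ideal (S k)}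
    (hI : IsCurve k d₁ g₁ I) (hc : Relation.ReflTransGen (OneFam k d₁ g₁) I I')
    (hJ : IsCurve k d₂ g₂ J) :
    ∀ M M' : Matrix (Fin 4) (Fin 4) k, IsUnit M.det → IsUnit M'.det →
      Dis k I (tr M J) → Dis k I' (tr M' J) →
      SameComp k (d₁ + d₂) (g₁ + g₂ - 1) (I ⊓ tr M J) (I' ⊓ tr M' J) := by
  have : Infinite k := IsAlgClosed.instInfinite
  induction hc with
  | refl =>
    intro M M' hM hM' hd hd'
    exact move_right hI hJ hM hM' hd hd'
  | @tail K L _ h2 ih =>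
    intro M M' hM hM' hd hd'
    obtain ⟨hK, hL, A, i1, i2, i3, i4, a, F, hF, φ, ψ, h3, h4, h5, h6⟩ := h2
    obtain ⟨P, hP, hP'⟩ := exists_dis hK hJ
    exact sameComp_trans (ih M P hM hP hd hP')
      (two_point hF hJ h3 h4 hP hM' hK hL h5 h6 hP' hd')

/-- **Well-definedness.** -/
theorem sameComp_inf [IsAlgClosed k] {d₁ d₂ : ℕ} {g₁ g₂ : ℤ} {I I' J J' : Ideal (S k)}
    (hI : SameComp k d₁ g₁ I I') (hJ : SameComp k d₂ g₂ J J')
    (hd : Dis k I J) (hd' : Dis k I' J') :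
    SameComp k (d₁ + d₂) (g₁ + g₂ - 1) (I ⊓ J) (I' ⊓ J') := by
  have : Infinite k := IsAlgClosed.instInfinite
  have hI' := sameComp_right hI
  obtain ⟨M, hM, hMd⟩ := exists_dis hI' hJ.1
  have one : IsUnit (1 : Matrix (Fin 4) (Fin 4) k).det := by simp
  have h1 : SameComp k (d₁ + d₂) (g₁ + g₂ - 1) (I ⊓ tr 1 J) (I' ⊓ tr M J) :=
    chain_left hI.1 hI.2 hJ.1 1 M one hM (by rwa [tr_one]) hMd
  have h2 : SameComp k d₂ g₂ (tr M J) J' :=
    sameComp_trans (sameComp_symm (sameComp_of_oneFam (oneFam_tr hJ.1 M hM))) hJ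
  have h3 : SameComp k (d₂ + d₁) (g₂ + g₁ - 1) (tr M J ⊓ tr 1 I') (J' ⊓ tr 1 I') :=
    chain_left h2.1 h2.2 hI' 1 1 one one (by rw [tr_one]; exact dis_symm hMd)
      (by rw [tr_one]; exact dis_symm hd')
  rw [tr_one] at h1
  rw [tr_one, inf_comm, inf_comm J' I', add_comm d₂ d₁, add_comm g₂ g₁] at h3
  exact sameComp_trans h1 h3

theorem dis_inf {I J K : Ideal (S k)} (h : Dis k I K) (h' : Dis k J K) : Dis k (I ⊓ J) K := by
  obtain ⟨N, hN⟩ := h
  obtain ⟨N', hN'⟩ := h'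
  refine ⟨N + N', ?_⟩
  rw [pow_add]
  refine (Ideal.mul_mono hN hN').trans ?_
  refine Ideal.mul_le.mpr ?_
  intro x hx y hy
  obtain ⟨a, ha, b, hb, rfl⟩ := Submodule.mem_sup.mp hx
  obtain ⟨c, hc, e, he, rfl⟩ := Submodule.mem_sup.mp hy
  have h1 : (a + b) * (c + e) = a * c + (a * e + b * (c + e)) := by ring
  rw [h1]
  refine Submodule.add_mem_sup ⟨Ideal.mul_mem_right _ _ ha, Ideal.mul_mem_left _ _ hc⟩ ?_
  exact Ideal.add_mem _ (Ideal.mul_mem_left _ _ he) (Ideal.mul_mem_right _ _ hb)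

/-- The degree and the genus are determined by the ideal. -/
theorem type_unique {d d' : ℕ} {g g' : ℤ} {I : Ideal (S k)} (h : IsCurve k d g I)
    (h' : IsCurve k d' g' I) : d = d' ∧ g = g' := by
  obtain ⟨N, hN⟩ := h.hilb
  obtain ⟨N', hN'⟩ := h'.hilb
  have e1 := (hN (N + N') (by omega)).symm.trans (hN' (N + N') (by omega))
  have e2 := (hN (N + N' + 1) (by omega)).symm.trans (hN' (N + N' + 1) (by omega))
  push_cast at e1 e2
  have e3 : (d : ℤ) = d' := by nlinarith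
  refine ⟨by exact_mod_cast e3, ?_⟩
  rw [e3] at e1
  linarith

end MP_06793c_ag
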