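import Pool.Agent.Lib.MP_06793c_ag.Trans

/-!
A linear change of coordinates maps curves to curves (same degree and genus).
-/

namespace MP_06793c_ag

open MvPolynomial

universe u

variable {k : Type u} [Field k]

private theorem sub_X (M : Matrix (Fin 4) (Fin 4) k) (i : Fin 4) :
    sub M (X i : S k) = ∑ j, C (M i j) * X j := by
  simp [sub]

private theorem sub_C (M : Matrix (Fin 4) (Fin 4) k) (c : k) :
    sub M (C c : S k) = C c := by
  simp [sub]

private theorem sub_sub (M N : Matrix (Fin 4) (Fin 4) k) (p : S k) :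
    sub M (sub N p : S k) = sub (N * M) p := by
  have h : ((sub M : S k →+* S k).comp (sub N : S k →+* S k)) = sub (N * M) := by
    apply MvPolynomial.ringHom_ext
    · intro c
      simp only [RingHom.comp_apply, sub_C]
    · intro i
      simp only [RingHom.comp_apply, sub_X, map_sum, map_mul, sub_C]
      simp only [Matrix.mul_apply, map_sum, map_mul, Finset.mul_sum, Finset.sum_mul]
      rw [Finset.sum_comm]
      refine Finset.sum_congr rfl fun j _ => Finset.sum_congr rfl fun l _ => ?_
      ring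
  exact congrArg (fun f : S k →+* S k => f p) h

private theorem sub_one' (p : S k) : sub (1 : Matrix (Fin 4) (Fin 4) k) p = p := by
  have h : (sub (1 : Matrix (Fin 4) (Fin 4) k) : S k →+* S k) = RingHom.id _ := by
    apply MvPolynomial.ringHom_ext
    · intro c
      simp only [RingHom.id_apply, sub_C]
    · intro i
      simp [sub_X, Matrix.one_apply]
  rw [h]; rfl

private theorem sub_inv (M : Matrix (Fin 4) (Fin 4) k) (hM : IsUnit M.det) (p : S k) :
    sub M (sub M⁻¹ p : S k) = p := by
  rw [sub_sub, Matrix.nonsing_inv_mul M hM, sub_one']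

private theorem inv_sub (M : Matrix (Fin 4) (Fin 4) k) (hM : IsUnit M.det) (p : S k) :
    sub M⁻¹ (sub M p : S k) = p := by
  rw [sub_sub, Matrix.mul_nonsing_inv M hM, sub_one']

/-- The substitution as an automorphism. -/
private noncomputable def eqv (M : Matrix (Fin 4) (Fin 4) k) (hM : IsUnit M.det) :
    S k ≃+* S k where
  toFun := sub M
  invFun := sub M⁻¹
  left_inv p := inv_sub M hM p
  right_inv p := sub_inv M hM p
  map_mul' := map_mul _
  map_add' := map_add _

private theorem mem_tr (M : Matrix (Fin 4) (Fin 4) k) (hM : IsUnit M.det) (J : Ideal (S k))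
    (p : S k) : p ∈ tr M J ↔ sub M⁻¹ p ∈ J := by
  constructor
  · intro h
    have h1 : (tr M J).map (sub M⁻¹) = J := by
      rw [tr, Ideal.map_map]
      have : (sub M⁻¹ : S k →+* S k).comp (sub M : S k →+* S k) = RingHom.id _ :=
        RingHom.ext fun p => inv_sub M hM p
      rw [this, Ideal.map_id]
    rw [← h1]
    exact Ideal.mem_map_of_mem _ h
  · intro h
    have := Ideal.mem_map_of_mem (sub M) h
    rwa [sub_inv M hM] at this

private theorem mem_colon' (J : Ideal (S k)) (y q : S k) :
    q ∈ (⊥ : Submodule (S k) (S k ⧸ J)).colon {Ideal.Quotient.mk J y} ↔ q * y ∈ J := by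
  rw [Submodule.mem_colon_singleton, Submodule.mem_bot, ← Ideal.Quotient.eq_zero_iff_mem, map_mul]
  rfl

/-- The substitution as a linear automorphism. -/
private noncomputable def leqv (M : Matrix (Fin 4) (Fin 4) k) (hM : IsUnit M.det) :
    S k ≃ₗ[k] S k where
  toFun := sub M
  invFun := sub M⁻¹
  left_inv p := inv_sub M hM p
  right_inv p := sub_inv M hM p
  map_add' := map_add _
  map_smul' c p := by
    simp only [MvPolynomial.smul_eq_C_mul, map_mul, sub_C, RingHom.id_apply]

private theorem hf_tr (M : Matrix (Fin 4) (Fin 4) k) (hM : IsUnit M.det) (J : Ideal (S k))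
    (n : ℕ) : hf k (tr M J) n = hf k J n := by
  have h : ((tr M J).restrictScalars k ⊓ deg k n : Submodule k (S k))
      = (J.restrictScalars k ⊓ deg k n : Submodule k (S k)).map
        (leqv M hM : S k →ₗ[k] S k) := by
    ext p
    simp only [Submodule.mem_inf, Submodule.restrictScalars_mem, Submodule.mem_map]
    constructor
    · rintro ⟨h1, h2⟩
      exact ⟨sub M⁻¹ p, ⟨(mem_tr M hM J p).1 h1, sub_homog M⁻¹ h2⟩, sub_inv M hM p⟩
    · rintro ⟨q, ⟨h1, h2⟩, rfl⟩
      exact ⟨Ideal.mem_map_of_mem (sub M) h1, sub_homog M h2⟩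
  unfold hf
  rw [h, LinearEquiv.finrank_map_eq]

theorem isCurve_tr {d : ℕ} {g : ℤ} {J : Ideal (S k)} (hJ : IsCurve k d g J)
    (M : Matrix (Fin 4) (Fin 4) k) (hM : IsUnit M.det) : IsCurve k d g (tr M J) := by
  refine ⟨hJ.pos, isHom_tr M hJ.hom, ?_, ?_⟩
  · intro P hP
    have hP' : P.comap (eqv M hM) ∈ associatedPrimes (S k) (S k ⧸ J) := by
      obtain ⟨hp, x, hx⟩ := hP
      obtain ⟨y, rfl⟩ := Ideal.Quotient.mk_surjective x
      refine ⟨Ideal.comap_isPrime _ _, Ideal.Quotient.mk J (sub M⁻¹ y), ?_⟩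
      ext q
      have h1 : q ∈ P.comap (eqv M hM) ↔ sub M q ∈ P := Iff.rfl
      rw [h1, hx, Ideal.mem_radical_iff, Ideal.mem_radical_iff]
      refine exists_congr fun m => ?_
      rw [mem_colon', mem_colon', mem_tr M hM, map_mul, map_pow, inv_sub M hM]
    have hd := hJ.ass _ hP'
    rw [← hd]
    exact (ringKrullDim_eq_of_ringEquiv (Ideal.quotientEquiv (P.comap (eqv M hM)) P (eqv M hM)
      (Ideal.map_comap_of_surjective (eqv M hM : S k →+* S k) (eqv M hM).surjective P).symm)).symm
  · obtain ⟨N, hN⟩ := hJ.hilb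
    exact ⟨N, fun n hn => by rw [hf_tr M hM, hN n hn]⟩

end MP_06793c_ag
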