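import Mathlib

/-!
# Locally Cohen-Macaulay curves in projective 3-space: the objects

A curve is recorded by its saturated homogeneous ideal in `k[x0, x1, x2, x3]`.
-/

namespace MP_06793c_ag

open MvPolynomial

universe u

/-- The polynomial ring in the four homogeneous coordinates of `P^3` over `A`. -/
abbrev S (A : Type u) [CommRing A] : Type u := MvPolynomial (Fin 4) A

/-- The degree `n` part of the polynomial ring. -/
abbrev deg (A : Type u) [CommRing A] : ℕ → Submodule A (S A) :=
  homogeneousSubmodule (Fin 4) A

/-- The ideal `I` is homogeneous: with a polynomial it contains all its homogeneous components. -/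
def IsHom {A : Type u} [CommRing A] (I : Ideal (S A)) : Prop :=
  ∀ p ∈ I, ∀ n : ℕ, homogeneousComponent n p ∈ I

/-- The ideal generated by the four coordinates. -/
noncomputable abbrev mm (A : Type u) [CommRing A] : Ideal (S A) := idealOfVars (Fin 4) A

variable (k : Type u) [Field k]

/-- The Hilbert function of `k[x0, ..., x3] / I`: the codimension of the degree `n` part of `I` in
the space of all forms of degree `n`. -/
noncomputable def hf (I : Ideal (S k)) (n : ℕ) : ℤ :=
  (Module.finrank k (deg k n) : ℤ)
    - (Module.finrank k ((I.restrictScalars k ⊓ deg k n : Submodule k (S k))) : ℤ)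

/-- `IsCurve k d g I`: the ideal `I` is the saturated homogeneous ideal of a locally
Cohen-Macaulay curve of degree `d` and arithmetic genus `g` in `P^3`: it is homogeneous, every
associated prime `P` of `k[x0, ..., x3] / I` has `dim k[x0, ..., x3] / P = 2` (the scheme has pure
dimension one and no isolated or embedded points), and the Hilbert polynomial is
`d n + 1 - g`. -/
structure IsCurve (d : ℕ) (g : ℤ) (I : Ideal (S k)) : Prop where
  pos : 1 ≤ d
  hom : IsHom I
  ass : ∀ P ∈ associatedPrimes (S k) (S k ⧸ I), ringKrullDim (S k ⧸ P) = 2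
  hilb : ∃ N : ℕ, ∀ n : ℕ, N ≤ n → hf k I n = d * n + 1 - g

/-- Two ideals define the same closed subscheme of `P^3`: they agree in all large degrees. -/
def Agree (F I : Ideal (S k)) : Prop := ∃ N : ℕ, F ⊓ mm k ^ N = I ⊓ mm k ^ N

/-- The two closed subschemes of `P^3` are disjoint. -/
def Dis (I J : Ideal (S k)) : Prop := ∃ N : ℕ, mm k ^ N ≤ I ⊔ J

variable {k}

/-- The fibre of the ideal `F` over the `k`-point `φ`. -/
noncomputable def fib {A : Type u} [CommRing A] [Algebra k A] (φ : A →ₐ[k] k) (F : Ideal (S A)) :
    Ideal (S k) := F.map (MvPolynomial.map (φ : A →+* k))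

variable (k)

/-- `IsFam k d g A h F`: the homogeneous ideal `F` of `A[x0, ..., x3]` is, over the principal open
subset `D(h)` of `Spec A`, a family of locally Cohen-Macaulay curves of degree `d` and genus `g`
(every fibre over a `k`-point of `D(h)` is one). -/
def IsFam (d : ℕ) (g : ℤ) (A : Type u) [CommRing A] [Algebra k A] (h : A) (F : Ideal (S A)) :
    Prop :=
  IsHom F ∧
    ∀ φ : A →ₐ[k] k, φ h ≠ 0 → ∃ K : Ideal (S k), IsCurve k d g K ∧ Agree k (fib φ F) K

/-- The curves `I` and `J` of degree `d` and genus `g` are members of one family of such curves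
over `D(h)` in `Spec A`, where `A` is a finitely generated integral domain over `k`. -/
def OneFam (d : ℕ) (g : ℤ) (I J : Ideal (S k)) : Prop :=
  IsCurve k d g I ∧ IsCurve k d g J ∧
    ∃ (A : Type u) (_ : CommRing A) (_ : IsDomain A) (_ : Algebra k A)
      (_ : Algebra.FiniteType k A) (h : A) (F : Ideal (S A)),
      IsFam k d g A h F ∧
        ∃ φ ψ : A →ₐ[k] k, φ h ≠ 0 ∧ ψ h ≠ 0 ∧ Agree k (fib φ F) I ∧ Agree k (fib ψ F) J

/-- The points `I` and `J` of `H_{d,g}` lie in the same connected component: they are joined by a
finite chain of families. -/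
def SameComp (d : ℕ) (g : ℤ) (I J : Ideal (S k)) : Prop :=
  IsCurve k d g I ∧ Relation.ReflTransGen (OneFam k d g) I J

/-- `H_{d,g}` is connected (or empty). -/
def Conn (d : ℕ) (g : ℤ) : Prop :=
  ∀ I J : Ideal (S k), IsCurve k d g I → IsCurve k d g J → SameComp k d g I J

variable {k}

/-- The linear substitution `x_i ↦ ∑ j, M i j x_j` from `k[x0, ..., x3]` to `A[x0, ..., x3]`. -/
noncomputable def sub {A : Type u} [CommRing A] [Algebra k A] (M : Matrix (Fin 4) (Fin 4) A) :
    S k →+* S A :=
  MvPolynomial.eval₂Hom ((C : A →+* S A).comp (algebraMap k A))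
    (fun i => ∑ j, C (M i j) * X j)

/-- The ideal generated by the image of `J` under the linear substitution `M`. -/
noncomputable def tr {A : Type u} [CommRing A] [Algebra k A] (M : Matrix (Fin 4) (Fin 4) A)
    (J : Ideal (S k)) : Ideal (S A) := J.map (sub M)

end MP_06793c_ag
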