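import Pool.Agent.Lib.MP_06793c_ag.Defs

/-!
Homogeneous ideals: products and graded homomorphisms.
-/

namespace MP_06793c_ag

open MvPolynomial

universe u

theorem comp_mul_mem {B : Type u} [CommRing B] {I : Ideal (S B)} {q : S B}
    (hq : ∀ n, homogeneousComponent n q ∈ I) (a : S B) (n : ℕ) :
    homogeneousComponent n (a * q) ∈ I := by
  have h1 : a * q = ∑ i ∈ Finset.range (a.totalDegree + 1),
      ∑ j ∈ Finset.range (q.totalDegree + 1),
        homogeneousComponent i a * homogeneousComponent j q := by
    conv_lhs => rw [← sum_homogeneousComponent a, ← sum_homogeneousComponent q]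
    rw [Finset.sum_mul_sum]
  rw [h1, map_sum]
  refine Ideal.sum_mem _ fun i _ => ?_
  rw [map_sum]
  refine Ideal.sum_mem _ fun j _ => ?_
  have h2 : homogeneousComponent i a * homogeneousComponent j q ∈ deg B (i + j) :=
    (homogeneousComponent_isHomogeneous i a).mul (homogeneousComponent_isHomogeneous j q)
  rw [homogeneousComponent_of_mem h2]
  split_ifs
  · exact Ideal.mul_mem_left _ _ (hq j)
  · exact Ideal.zero_mem _

/-- The ideal generated by the image of a homogeneous ideal under a graded homomorphism is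
homogeneous. -/
theorem isHom_map_graded {A B : Type u} [CommRing A] [CommRing B] (f : S A →+* S B)
    (hf : ∀ (n : ℕ) (p : S A), p ∈ deg A n → f p ∈ deg B n) {F : Ideal (S A)} (hF : IsHom F) :
    IsHom (F.map f) := by
  intro q hq
  refine Submodule.span_induction (p := fun q _ => ∀ n, homogeneousComponent n q ∈ F.map f)
    ?_ ?_ ?_ ?_ hq
  · rintro _ ⟨p, hp, rfl⟩ n
    have h1 : f p = ∑ i ∈ Finset.range (p.totalDegree + 1), f (homogeneousComponent i p) := by
      rw [← map_sum, sum_homogeneousComponent]
    rw [h1, map_sum]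
    refine Ideal.sum_mem _ fun i _ => ?_
    rw [homogeneousComponent_of_mem (hf i _ (homogeneousComponent_isHomogeneous i p))]
    split_ifs
    · exact Ideal.mem_map_of_mem f (hF p hp i)
    · exact Ideal.zero_mem _
  · intro n; simp
  · intro x y _ _ hx hy n
    rw [map_add]; exact Ideal.add_mem _ (hx n) (hy n)
  · intro a x _ hx n
    exact comp_mul_mem hx a n

theorem subA_homog {B : Type u} [CommRing B] (M : Matrix (Fin 4) (Fin 4) B)
    (n : ℕ) (p : S B) (hp : p ∈ deg B n) :
    (MvPolynomial.eval₂Hom (C : B →+* S B) (fun i => ∑ j, C (M i j) * X j)) p ∈ deg B n := by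
  rw [mem_homogeneousSubmodule] at hp ⊢
  rw [coe_eval₂Hom, eval₂_eq']
  refine IsHomogeneous.sum _ _ _ fun m hm => ?_
  have h0 : m.degree = n := by
    have := hp (mem_support_iff.mp hm)
    rw [← this]
    simp [Finsupp.weight_apply, Finsupp.degree_apply, Finsupp.sum]
  have h1 : IsHomogeneous (∏ i, (∑ j, C (M i j) * X j : S B) ^ m i) (∑ i, m i) := by
    refine IsHomogeneous.prod _ _ _ fun i _ => ?_
    have h2 : IsHomogeneous (∑ j, C (M i j) * X j : S B) 1 := by
      refine IsHomogeneous.sum _ _ _ fun j _ => ?_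
      have := (isHomogeneous_C (Fin 4) (M i j)).mul (isHomogeneous_X B j)
      simpa using this
    simpa using h2.pow (m i)
  have h3 : (∑ i, m i) = n := by
    rw [← h0, Finsupp.degree_eq_sum]
  have h4 := (isHomogeneous_C (Fin 4) (coeff m p)).mul h1
  rw [h3, zero_add] at h4
  exact h4

/-- An ideal generated by forms is homogeneous. -/
theorem isHom_of_span {B : Type u} [CommRing B] {s : Set (S B)}
    (hs : ∀ p ∈ s, ∃ n, p ∈ deg B n) : IsHom (Ideal.span s) := by
  intro q hq
  refine Submodule.span_induction (p := fun q _ => ∀ n, homogeneousComponent n q ∈ Ideal.span s)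
    ?_ ?_ ?_ ?_ hq
  · intro p hp n
    obtain ⟨m, hm⟩ := hs p hp
    rw [homogeneousComponent_of_mem hm]
    split_ifs
    · exact Ideal.subset_span hp
    · exact Ideal.zero_mem _
  · intro n; simp
  · intro x y _ _ hx hy n
    rw [map_add]; exact Ideal.add_mem _ (hx n) (hy n)
  · intro a x _ hx n
    exact comp_mul_mem hx a n

end MP_06793c_ag
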