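import Pool.Agent.Lib.MP_06793c_ag.Chain
import Pool.Agent.Lib.MP_06793c_ag.Hom

/-!
Open conditions on curves which can be reached by a linear change of coordinates do not change the
set of connected components.
-/

namespace MP_06793c_ag

open MvPolynomial

universe u

variable {k : Type u} [Field k]

/-- The linear substitution `x_i ↦ ∑ j, M i j x_j` of `B[x0, ..., x3]`. -/
noncomputable def subA {B : Type u} [CommRing B] (M : Matrix (Fin 4) (Fin 4) B) : S B →+* S B :=
  MvPolynomial.eval₂Hom (C : B →+* S B) (fun i => ∑ j, C (M i j) * X j)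

theorem fib_trA {B : Type u} [CommRing B] [Algebra k B] (M : Matrix (Fin 4) (Fin 4) B)
    (F : Ideal (S B)) (φ : B →ₐ[k] k) :
    fib φ (F.map (subA M)) = tr (M.map φ) (fib φ F) := by
  rw [fib, tr, fib, Ideal.map_map, Ideal.map_map]
  congr 1
  refine MvPolynomial.ringHom_ext ?_ ?_
  · intro r
    simp [subA, sub]
  · intro i
    simp [subA, sub]

/-- The universal translate of a family. -/
noncomputable def WW {A : Type u} [CommRing A] [Algebra k A] (F : Ideal (S A)) :
    Ideal (S (RR A)) :=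
  (F.map (MvPolynomial.map ((inc (k := k) A : A →ₐ[k] RR A) : A →+* RR A))).map (subA (GG A))

theorem fib_WW {A : Type u} [CommRing A] [Algebra k A] (F : Ideal (S A)) (ψ : RR A →ₐ[k] k) :
    fib ψ (WW (k := k) F) = tr ((GG A).map ψ) (fib (ψ.comp (inc A)) F) := by
  rw [WW, fib_trA, fib_map]

theorem isHom_WW {A : Type u} [CommRing A] [Algebra k A] {F : Ideal (S A)} (hF : IsHom F) :
    IsHom (WW (k := k) F) :=
  isHom_map_graded _ (fun n p hp => subA_homog (GG A) n p hp) (isHom_map _ hF)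

theorem agree_tr {F I : Ideal (S k)} (h : Agree k F I) (M : Matrix (Fin 4) (Fin 4) k)
    (hM : IsUnit M.det) : Agree k (tr M F) (tr M I) := by
  obtain ⟨N, hN⟩ := h
  refine ⟨N, ?_⟩
  have key : ∀ K : Ideal (S k), tr M K ⊓ mm k ^ N = (K ⊓ mm k ^ N).map (sub M) := by
    intro K
    have hs : (sub M : S k →+* S k) = (subEquiv M hM : S k →+* S k) := by
      refine RingHom.ext fun p => ?_
      exact (subEquiv_apply M hM p).symm
    have e1 : tr M K = K.map (subEquiv M hM : S k →+* S k) := by rw [tr, hs]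
    have e2 : mm k ^ N = (mm k ^ N).map (subEquiv M hM : S k →+* S k) := by
      rw [← hs, sub_mm M hM]
    rw [e1]
    conv_lhs => rw [e2]
    rw [hs]
    ext x
    constructor
    · rintro ⟨h1, h2⟩
      obtain ⟨a, ha, rfl⟩ := (Ideal.mem_map_iff_of_surjective _ (subEquiv M hM).surjective).mp h1
      obtain ⟨b, hb, hab⟩ := (Ideal.mem_map_iff_of_surjective _ (subEquiv M hM).surjective).mp h2
      have : b = a := (subEquiv M hM).injective hab
      subst this
      exact Ideal.mem_map_of_mem _ ⟨ha, hb⟩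
    · intro h1
      exact ⟨Ideal.map_mono inf_le_left h1, Ideal.map_mono inf_le_right h1⟩
  rw [key, key, hN]

/-- `P` is an open condition on curves of degree `d` and genus `g`: in a family it holds on an open
neighbourhood of every point where it holds. -/
def OpenCond (k : Type u) [Field k] (d : ℕ) (g : ℤ) (P : Ideal (S k) → Prop) : Prop :=
  ∀ (A : Type u) [CommRing A] [IsDomain A] [Algebra k A] [Algebra.FiniteType k A] (h : A)
    (F : Ideal (S A)), IsFam k d g A h F → ∀ φ : A →ₐ[k] k, φ h ≠ 0 →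
      ∀ K : Ideal (S k), IsCurve k d g K → Agree k (fib φ F) K → P K →
        ∃ f : A, φ f ≠ 0 ∧ ∀ ψ : A →ₐ[k] k, ψ h ≠ 0 → ψ f ≠ 0 →
          ∀ L : Ideal (S k), IsCurve k d g L → Agree k (fib ψ F) L → P L

/-- One family all of whose members satisfy `P`. -/
def OneFamP (k : Type u) [Field k] (d : ℕ) (g : ℤ) (P : Ideal (S k) → Prop)
    (I J : Ideal (S k)) : Prop :=
  IsCurve k d g I ∧ IsCurve k d g J ∧
    ∃ (A : Type u) (_ : CommRing A) (_ : IsDomain A) (_ : Algebra k A)
      (_ : Algebra.FiniteType k A) (h : A) (F : Ideal (S A)),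
      IsFam k d g A h F ∧
        (∀ φ : A →ₐ[k] k, φ h ≠ 0 → ∀ K : Ideal (S k), IsCurve k d g K →
          Agree k (fib φ F) K → P K) ∧
        ∃ φ ψ : A →ₐ[k] k, φ h ≠ 0 ∧ ψ h ≠ 0 ∧ Agree k (fib φ F) I ∧ Agree k (fib ψ F) J

/-- The curves `I` and `J` satisfy `P` and lie in the same connected component of the open subset of
`H_{d,g}` defined by `P`. -/
def SameCompP (k : Type u) [Field k] (d : ℕ) (g : ℤ) (P : Ideal (S k) → Prop)
    (I J : Ideal (S k)) : Prop :=
  IsCurve k d g I ∧ P I ∧ Relation.ReflTransGen (OneFamP k d g P) I J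

theorem det_map {A : Type u} [CommRing A] [Algebra k A] (ψ : RR A →ₐ[k] k) :
    ψ (GG A).det = ((GG A).map ψ).det := by
  have := RingHom.map_det ((ψ : RR A →ₐ[k] k) : RR A →+* k) (GG A)
  simpa [RingHom.mapMatrix_apply] using this

/-- The universal translate of a family is a family where the matrix is invertible. -/
theorem isFam_WW {d : ℕ} {g : ℤ} {A : Type u} [CommRing A] [Algebra k A] {h : A}
    {F : Ideal (S A)} (hF : IsFam k d g A h F) :
    IsFam k d g (RR A) (inc (k := k) A h * (GG A).det) (WW (k := k) F) := by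
  refine ⟨isHom_WW hF.1, fun ψ hψ => ?_⟩
  rw [map_mul] at hψ
  obtain ⟨K, hK, hK'⟩ := hF.2 (ψ.comp (inc A))
    (by simpa [AlgHom.comp_apply] using left_ne_zero_of_mul hψ)
  have h5 : IsUnit ((GG A).map ψ).det := by
    rw [← det_map]; exact (right_ne_zero_of_mul hψ).isUnit
  refine ⟨tr ((GG A).map ψ) K, isCurve_tr hK _ h5, ?_⟩
  rw [fib_WW]
  exact agree_tr hK' _ h5

theorem pt_ne {A : Type u} [CommRing A] [Algebra k A] {h : A} {φ : A →ₐ[k] k} (hφ : φ h ≠ 0)
    {M : Matrix (Fin 4) (Fin 4) k} (hM : IsUnit M.det) :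
    pt φ M (inc (k := k) A h * (GG A).det) ≠ 0 := by
  rw [map_mul]
  refine mul_ne_zero ?_ ?_
  · have := congrArg (fun χ : A →ₐ[k] k => χ h) (pt_inc φ M)
    simp only [AlgHom.comp_apply] at this
    rw [this]; exact hφ
  · rw [det_map, pt_GG]
    exact hM.ne_zero

/-- Two points of the universal translate where `P` holds. -/
theorem two_pointP [IsAlgClosed k] {d : ℕ} {g : ℤ} {P : Ideal (S k) → Prop}
    (hP : OpenCond k d g P) {A : Type u} [CommRing A] [IsDomain A]
    [Algebra k A] [Algebra.FiniteType k A] {h : A} {F : Ideal (S A)}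
    (hF : IsFam k d g A h F) {φ φ' : A →ₐ[k] k} (hφ : φ h ≠ 0) (hφ' : φ' h ≠ 0)
    {M M' : Matrix (Fin 4) (Fin 4) k} (hM : IsUnit M.det) (hM' : IsUnit M'.det)
    {I I' : Ideal (S k)} (hIc : IsCurve k d g I) (hIc' : IsCurve k d g I')
    (hI : Agree k (fib φ F) I) (hI' : Agree k (fib φ' F) I')
    (hd : P (tr M I)) (hd' : P (tr M' I')) :
    Relation.ReflTransGen (OneFamP k d g P) (tr M I) (tr M' I') := by
  set h0 : RR A := inc (k := k) A h * (GG A).det with hh0
  have a1 : Agree k (fib (pt φ M) (WW (k := k) F)) (tr M I) := by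
    rw [fib_WW, pt_inc, pt_GG]; exact agree_tr hI _ hM
  have a2 : Agree k (fib (pt φ' M') (WW (k := k) F)) (tr M' I') := by
    rw [fib_WW, pt_inc, pt_GG]; exact agree_tr hI' _ hM'
  have c1 := isCurve_tr hIc M hM
  have c2 := isCurve_tr hIc' M' hM'
  obtain ⟨f, hf, hf'⟩ := hP (RR A) h0 (WW (k := k) F) (isFam_WW hF) (pt φ M) (pt_ne hφ hM)
    (tr M I) c1 a1 hd
  obtain ⟨f₂, hf₂, hf₂'⟩ := hP (RR A) h0 (WW (k := k) F) (isFam_WW hF) (pt φ' M') (pt_ne hφ' hM')
    (tr M' I') c2 a2 hd'
  have fam : ∀ e : RR A, IsFam k d g (RR A) (h0 * e) (WW (k := k) F) := by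
    intro e
    refine ⟨(isFam_WW hF).1, fun ψ hψ => (isFam_WW hF).2 ψ ?_⟩
    rw [map_mul] at hψ
    exact left_ne_zero_of_mul hψ
  have hne : h0 * f * (h0 * f₂) ≠ 0 := by
    intro hz
    rcases mul_eq_zero.mp hz with hz | hz
    · have := congrArg (pt φ M) hz
      rw [map_mul, map_zero] at this
      exact mul_ne_zero (pt_ne hφ hM) hf this
    · have := congrArg (pt φ' M') hz
      rw [map_mul, map_zero] at this
      exact mul_ne_zero (pt_ne hφ' hM') hf₂ this
  obtain ⟨ψ, hψ⟩ := exists_point (k := k) _ hne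
  rw [map_mul] at hψ
  have e1 : ψ (h0 * f) ≠ 0 := left_ne_zero_of_mul hψ
  have e2 : ψ (h0 * f₂) ≠ 0 := right_ne_zero_of_mul hψ
  obtain ⟨L, hL, hLa⟩ := (fam f).2 ψ e1
  have s1 : OneFamP k d g P (tr M I) L := by
    refine ⟨c1, hL, RR A, inferInstance, inferInstance, inferInstance, inferInstance, h0 * f,
      WW (k := k) F, fam f, ?_, pt φ M, ψ, ?_, e1, a1, hLa⟩
    · intro χ hχ K hK hKa
      rw [map_mul] at hχ
      exact hf' χ (left_ne_zero_of_mul hχ) (right_ne_zero_of_mul hχ) K hK hKa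
    · rw [map_mul]; exact mul_ne_zero (pt_ne hφ hM) hf
  have s2 : OneFamP k d g P L (tr M' I') := by
    refine ⟨hL, c2, RR A, inferInstance, inferInstance, inferInstance, inferInstance, h0 * f₂,
      WW (k := k) F, fam f₂, ?_, ψ, pt φ' M', e2, ?_, hLa, a2⟩
    · intro χ hχ K hK hKa
      rw [map_mul] at hχ
      exact hf₂' χ (left_ne_zero_of_mul hχ) (right_ne_zero_of_mul hχ) K hK hKa
    · rw [map_mul]; exact mul_ne_zero (pt_ne hφ' hM') hf₂
  exact (Relation.ReflTransGen.single s1).tail s2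

theorem oneFam_of_oneFamP {d : ℕ} {g : ℤ} {P : Ideal (S k) → Prop} {I J : Ideal (S k)}
    (h : OneFamP k d g P I J) : OneFam k d g I J := by
  obtain ⟨h1, h2, A, i1, i2, i3, i4, a, F, hF, _, h3⟩ := h
  exact ⟨h1, h2, A, i1, i2, i3, i4, a, F, hF, h3⟩

/-- **Open conditions do not change the components.** -/
theorem open_cond [IsAlgClosed k] {d : ℕ} {g : ℤ} {P : Ideal (S k) → Prop}
    (hP : OpenCond k d g P)
    (hM : ∀ K : Ideal (S k), IsCurve k d g K →
      ∃ M : Matrix (Fin 4) (Fin 4) k, IsUnit M.det ∧ P (tr M K))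
    {I J : Ideal (S k)} (hI : P I) (hJ : P J) :
    SameComp k d g I J ↔ SameCompP k d g P I J := by
  have one : IsUnit (1 : Matrix (Fin 4) (Fin 4) k).det := by simp
  constructor
  · intro h
    refine ⟨h.1, hI, ?_⟩
    have key : ∀ K : Ideal (S k), Relation.ReflTransGen (OneFam k d g) I K →
        ∀ M : Matrix (Fin 4) (Fin 4) k, IsUnit M.det → P (tr M K) →
          Relation.ReflTransGen (OneFamP k d g P) I (tr M K) := by
      intro K hK
      induction hK with
      | refl =>
        intro M hMu hMp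
        have h1 : Agree k (fib (AlgHom.id k k) (I.map (MvPolynomial.map (algebraMap k k)))) I := by
          rw [fib_const]; exact agree_refl _
        have := two_pointP hP (isFam_const h.1) (φ := AlgHom.id k k) (φ' := AlgHom.id k k)
          (by simp) (by simp) one hMu h.1 h.1 h1 h1 (by rwa [tr_one]) hMp
        rwa [tr_one] at this
      | @tail K L _ h2 ih =>
        intro M hMu hMp
        obtain ⟨hK, hL, A, i1, i2, i3, i4, a, F, hF, φ, ψ, h3, h4, h5, h6⟩ := h2
        obtain ⟨Q, hQ, hQ'⟩ := hM K hK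
        exact (ih Q hQ hQ').trans (two_pointP hP hF h3 h4 hQ hMu hK hL h5 h6 hQ' hMp)
    have := key J h.2 1 one (by rwa [tr_one])
    rwa [tr_one] at this
  · intro h
    refine ⟨h.1, ?_⟩
    exact Relation.ReflTransGen.mono (fun _ _ hxy => oneFam_of_oneFamP hxy) _ _ h.2.2

/-- Not meeting a given closed subscheme is an open condition. -/
theorem openCond_dis (d : ℕ) (g : ℤ) (D : Ideal (S k)) (hD : IsHom D) :
    OpenCond k d g (fun I => Dis k I D) := by
  intro A _ _ _ _ h F hF φ hφ K hK hKa hd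
  have h1 : Dis k (fib φ F) D := dis_of_agree (agree_symm hKa) (agree_refl _) hd
  obtain ⟨N, hN⟩ := h1
  have key : ∀ ψ : A →ₐ[k] k, fib ψ (F ⊔ D.map (MvPolynomial.map (algebraMap k A)))
      = fib ψ F ⊔ D := by
    intro ψ; rw [fib_sup, fib_const]
  obtain ⟨f, hf, hf'⟩ := open_dis (F ⊔ D.map (MvPolynomial.map (algebraMap k A)))
    (isHom_sup hF.1 (isHom_map _ hD)) φ N (by rw [key]; exact hN)
  refine ⟨f, hf, fun ψ _ hψ L hL hLa => ?_⟩
  have h2 : Dis k (fib ψ F) D := ⟨N, by rw [← key]; exact hf' ψ hψ⟩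
  exact dis_of_agree hLa (agree_refl _) h2

end MP_06793c_ag
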