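import Pool.Agent.Lib.MP_06793c_ag.Semi
import Pool.Agent.Lib.MP_06793c_ag.Gen

/-!
Unions of finitely many pairwise disjoint curves; curves not meeting a given one.
-/

namespace MP_06793c_ag

open MvPolynomial

universe u

variable {k : Type u} [Field k]

theorem dis_finset {ι : Type} (s : Finset ι) (hs : s.Nonempty) (I : ι → Ideal (S k))
    (K : Ideal (S k)) (h : ∀ i ∈ s, Dis k (I i) K) : Dis k (s.inf I) K := by
  classical
  induction hs using Finset.Nonempty.cons_induction with
  | singleton a => simpa using h a (by simp)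
  | cons a s ha hs ih =>
    rw [Finset.inf_cons]
    exact dis_inf (h a (by simp)) (ih fun i hi => h i (by simp [hi]))

/-- Unions of finitely many pairwise disjoint curves. -/
theorem sameComp_finset [IsAlgClosed k] {ι : Type} (s : Finset ι) (hs : s.Nonempty)
    (d : ι → ℕ) (g : ι → ℤ) (I J : ι → Ideal (S k))
    (h : ∀ i ∈ s, SameComp k (d i) (g i) (I i) (J i))
    (hI : ∀ i ∈ s, ∀ j ∈ s, i ≠ j → Dis k (I i) (I j))
    (hJ : ∀ i ∈ s, ∀ j ∈ s, i ≠ j → Dis k (J i) (J j)) :
    SameComp k (∑ i ∈ s, d i) (1 - ∑ i ∈ s, (1 - g i)) (s.inf I) (s.inf J) := by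
  classical
  induction hs using Finset.Nonempty.cons_induction with
  | singleton a => simpa using h a (by simp)
  | cons a s ha hs ih =>
    have h1 := ih (fun i hi => h i (by simp [hi]))
      (fun i hi j hj => hI i (by simp [hi]) j (by simp [hj]))
      (fun i hi j hj => hJ i (by simp [hi]) j (by simp [hj]))
    have h2 := h a (by simp)
    have h3 : Dis k (I a) (s.inf I) := dis_symm (dis_finset s hs I (I a) fun i hi =>
      hI i (by simp [hi]) a (by simp) (by rintro rfl; exact ha hi))
    have h4 : Dis k (J a) (s.inf J) := dis_symm (dis_finset s hs J (J a) fun i hi =>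
      hJ i (by simp [hi]) a (by simp) (by rintro rfl; exact ha hi))
    have h5 := sameComp_inf h2 h1 h3 h4
    rw [Finset.inf_cons, Finset.inf_cons, Finset.sum_cons, Finset.sum_cons]
    have h6 : g a + (1 - ∑ i ∈ s, (1 - g i)) - 1 = 1 - ((1 - g a) + ∑ i ∈ s, (1 - g i)) := by
      ring
    rw [h6] at h5
    exact h5

theorem isHom_line (a b : Fin 4) : IsHom (Ideal.span {(X a : S k), X b}) := by
  have h := isHom_of_span (B := k) (s := {(X a : S k), X b}) ?_
  · exact h
  · rintro p (rfl | rfl)
    · exact ⟨1, isHomogeneous_X k a⟩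
    · exact ⟨1, isHomogeneous_X k b⟩

end MP_06793c_ag
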