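import Pool.Agent.Lib.MP_06793c_ag.Defs

/-!
The union of two disjoint curves.
-/

namespace MP_06793c_ag

open MvPolynomial

universe u

variable {k : Type u} [Field k]

private theorem isHom_inf {I J : Ideal (S k)} (hI : IsHom I) (hJ : IsHom J) : IsHom (I ⊓ J) :=
  fun p hp n => ⟨hI p hp.1 n, hJ p hp.2 n⟩

private theorem ass_inf {I J : Ideal (S k)} :
    associatedPrimes (S k) (S k ⧸ (I ⊓ J)) ⊆
      associatedPrimes (S k) (S k ⧸ I) ∪ associatedPrimes (S k) (S k ⧸ J) := by
  rw [← associatedPrimes.prod]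
  let f : (S k ⧸ (I ⊓ J)) →ₗ[S k] (S k ⧸ I) × (S k ⧸ J) :=
    Submodule.liftQ (I ⊓ J) ((Submodule.mkQ I).prod (Submodule.mkQ J)) (by
      intro p hp
      rw [LinearMap.mem_ker]
      exact Prod.ext ((Submodule.Quotient.mk_eq_zero I).2 hp.1)
        ((Submodule.Quotient.mk_eq_zero J).2 hp.2))
  have hf : Function.Injective f := by
    rw [← LinearMap.ker_eq_bot]
    apply Submodule.ker_liftQ_eq_bot
    intro p hp
    rw [LinearMap.mem_ker] at hp
    exact ⟨(Submodule.Quotient.mk_eq_zero I).1 (congrArg Prod.fst hp),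
      (Submodule.Quotient.mk_eq_zero J).1 (congrArg Prod.snd hp)⟩
  exact associatedPrimes.subset_of_injective hf

private theorem deg_le_pow (n N : ℕ) (h : N ≤ n) (p : S k) (hp : p ∈ deg k n) :
    p ∈ mm k ^ N := by
  rw [mem_pow_idealOfVars_iff']
  intro x hx
  exact ((mem_homogeneousSubmodule n p).1 hp).coeff_eq_zero (by omega)

private theorem sup_deg {I J : Ideal (S k)} (hI : IsHom I) (hJ : IsHom J) (N n : ℕ)
    (h : mm k ^ N ≤ I ⊔ J) (hn : N ≤ n) :
    (I.restrictScalars k ⊓ deg k n : Submodule k (S k)) ⊔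
      (J.restrictScalars k ⊓ deg k n : Submodule k (S k)) = deg k n := by
  apply le_antisymm
  · exact sup_le inf_le_right inf_le_right
  · intro p hp
    obtain ⟨a, ha, b, hb, hab⟩ := Submodule.mem_sup.1 (h (deg_le_pow n N hn p hp))
    have hcomp : homogeneousComponent n a + homogeneousComponent n b = p := by
      rw [← map_add, hab]
      exact (homogeneousComponent_of_mem hp).trans (if_pos rfl)
    refine Submodule.mem_sup.2 ⟨homogeneousComponent n a, ⟨hI a ha n, ?_⟩,
      homogeneousComponent n b, ⟨hJ b hb n, ?_⟩, hcomp⟩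
    · exact homogeneousComponent_mem n a
    · exact homogeneousComponent_mem n b

private theorem hf_inf {I J : Ideal (S k)} (hI : IsHom I) (hJ : IsHom J) (N n : ℕ)
    (h : mm k ^ N ≤ I ⊔ J) (hn : N ≤ n) :
    hf k (I ⊓ J) n = hf k I n + hf k J n := by
  have : Module.Finite k (deg k n) := Module.Finite.iff_fg.2 (homogeneousSubmodule_fg _ _ n)
  have : Module.Finite k ((I.restrictScalars k ⊓ deg k n : Submodule k (S k))) :=
    Submodule.finiteDimensional_inf_right _ _
  have : Module.Finite k ((J.restrictScalars k ⊓ deg k n : Submodule k (S k))) :=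
    Submodule.finiteDimensional_inf_right _ _
  have h1 := Submodule.finrank_sup_add_finrank_inf_eq
    (I.restrictScalars k ⊓ deg k n : Submodule k (S k))
    (J.restrictScalars k ⊓ deg k n : Submodule k (S k))
  rw [sup_deg hI hJ N n h hn] at h1
  have h2 : ((I.restrictScalars k ⊓ deg k n : Submodule k (S k)) ⊓
      (J.restrictScalars k ⊓ deg k n : Submodule k (S k))) =
      ((I ⊓ J).restrictScalars k ⊓ deg k n : Submodule k (S k)) := by
    ext p
    simp only [Submodule.mem_inf, Submodule.restrictScalars_mem]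
    tauto
  rw [h2] at h1
  unfold hf
  omega

theorem isCurve_inf {d₁ d₂ : ℕ} {g₁ g₂ : ℤ} {I J : Ideal (S k)} (hI : IsCurve k d₁ g₁ I)
    (hJ : IsCurve k d₂ g₂ J) (h : Dis k I J) :
    IsCurve k (d₁ + d₂) (g₁ + g₂ - 1) (I ⊓ J) := by
  obtain ⟨N, hN⟩ := h
  obtain ⟨N₁, h₁⟩ := hI.hilb
  obtain ⟨N₂, h₂⟩ := hJ.hilb
  refine ⟨?_, isHom_inf hI.hom hJ.hom, ?_, max N (max N₁ N₂), ?_⟩
  · have := hI.pos
    omega
  · intro P hP
    rcases ass_inf hP with hP | hP
    · exact hI.ass P hP
    · exact hJ.ass P hP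
  · intro n hn
    rw [hf_inf hI.hom hJ.hom N n hN (by omega), h₁ n (by omega), h₂ n (by omega)]
    push_cast
    ring

end MP_06793c_ag
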