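import Pool.Agent.Lib.MP_06793c_ag.Trans

/-!
There is a line which does not meet a given curve.
-/

namespace MP_06793c_ag

open MvPolynomial

universe u

variable {k : Type u} [Field k]

/-- Linear forms. -/
noncomputable def lin (v : Fin 4 → k) : S k := ∑ j, C (v j) * X j

section aux

attribute [local instance] MvPolynomial.gradedAlgebra

private theorem homog {I : Ideal (S k)} (h : IsHom I) : I.IsHomogeneous (homogeneousSubmodule (Fin 4) k) := by
  intro n p hp
  have e : (DirectSum.decompose (homogeneousSubmodule (Fin 4) k) p n : S k) = homogeneousComponent n p :=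
    decomposition.decompose'_apply p n
  rw [e]
  exact h p hp n

private theorem mem_mm {p : S k} : p ∈ mm k ↔ constantCoeff p = 0 := by
  rw [← pow_one (mm k), mem_pow_idealOfVars_iff']
  constructor
  · intro h
    exact h 0 (by simp)
  · intro h x hx
    have hx0 : x = 0 := by
      rw [← Finsupp.degree_eq_zero_iff]
      omega
    rw [hx0]
    exact h

private theorem mm_max : (mm k).IsMaximal := by
  have e : mm k = RingHom.ker (constantCoeff : S k →+* k) := by
    ext p
    rw [RingHom.mem_ker, mem_mm]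
  rw [e]
  refine RingHom.ker_isMaximal_of_surjective _ fun c => ⟨C c, constantCoeff_C (Fin 4) c⟩

private theorem le_mm {q : Ideal (S k)} (hq : q.IsPrime) (h : q.IsHomogeneous (homogeneousSubmodule (Fin 4) k)) : q ≤ mm k := by
  intro p hp
  rw [mem_mm]
  by_contra hc
  have h0 : homogeneousComponent 0 p ∈ q := homogeneousComponent_mem_of_mem h hp 0
  rw [homogeneousComponent_zero] at h0
  refine hq.ne_top (Ideal.eq_top_of_isUnit_mem _ h0 ?_)
  exact (isUnit_iff_ne_zero.2 hc).map C

private theorem min_homog {J q : Ideal (S k)} (hJ : J.IsHomogeneous (homogeneousSubmodule (Fin 4) k))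
    (hq : q ∈ J.minimalPrimes) : q.IsHomogeneous (homogeneousSubmodule (Fin 4) k) := by
  have h1 : (q.homogeneousCore (homogeneousSubmodule (Fin 4) k)).toIdeal.IsPrime := Ideal.IsPrime.homogeneousCore hq.1.1
  have h2 : J ≤ (q.homogeneousCore (homogeneousSubmodule (Fin 4) k)).toIdeal :=
    hJ.toIdeal_homogeneousCore_eq_self.symm.trans_le (Ideal.homogeneousCore_mono _ hq.1.2)
  have h3 : (q.homogeneousCore (homogeneousSubmodule (Fin 4) k)).toIdeal ≤ q := Ideal.toIdeal_homogeneousCore_le _ q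
  have h4 : q ≤ (q.homogeneousCore (homogeneousSubmodule (Fin 4) k)).toIdeal := hq.2 ⟨h1, h2⟩ h3
  have h5 : (q.homogeneousCore (homogeneousSubmodule (Fin 4) k)).toIdeal = q := le_antisymm h3 h4
  rw [← h5]
  exact HomogeneousIdeal.isHomogeneous _

private theorem lin_homog (v : Fin 4 → k) : lin v ∈ homogeneousSubmodule (Fin 4) k 1 := by
  rw [mem_homogeneousSubmodule]
  exact IsHomogeneous.sum _ _ _ fun j _ => isHomogeneous_C_mul_X (v j) j

private theorem J_homog {I : Ideal (S k)} (h : IsHom I) (v w : Fin 4 → k) :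
    (I ⊔ Ideal.span {lin v, lin w}).IsHomogeneous (homogeneousSubmodule (Fin 4) k) := by
  refine Ideal.IsHomogeneous.sup (homog h) (Ideal.homogeneous_span _ _ ?_)
  intro x hx
  rcases hx with rfl | rfl
  · exact ⟨1, lin_homog v⟩
  · exact ⟨1, lin_homog w⟩

end aux

private noncomputable def linM : (Fin 4 → k) →ₗ[k] S k where
  toFun := lin
  map_add' v w := by
    simp only [lin, Pi.add_apply, map_add, add_mul, Finset.sum_add_distrib]
  map_smul' a v := by
    simp only [lin, Pi.smul_apply, smul_eq_mul, map_mul, RingHom.id_apply, Finset.smul_sum, smul_eq_C_mul, mul_assoc]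

private theorem lin_single (i : Fin 4) : lin (Pi.single i (1 : k)) = X i := by
  rw [lin, Finset.sum_eq_single i]
  · rw [Pi.single_eq_same, C_1, one_mul]
  · intro j _ hj
    rw [Pi.single_eq_of_ne hj, C_0, zero_mul]
  · intro h
    exact absurd (Finset.mem_univ i) h

private theorem exists_avoid [Infinite k] (T : Set (Ideal (S k))) (hT : T.Finite) (hT' : ∀ P ∈ T, ∃ i, X i ∉ P)
    (U : Submodule k (Fin 4 → k)) (hU : U ≠ ⊤) : ∃ v, v ∉ U ∧ ∀ P ∈ T, lin v ∉ P := by
  classical
  have hs : ⊤ ∉ insert U (hT.toFinset.image fun P => (P.restrictScalars k).comap (linM (k := k))) := by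
    rw [Finset.mem_insert, not_or]
    refine ⟨fun h => hU h.symm, fun h => ?_⟩
    obtain ⟨P, hP, hP2⟩ := Finset.mem_image.1 h
    obtain ⟨i, hi⟩ := hT' P (hT.mem_toFinset.1 hP)
    apply hi
    have h1 : Pi.single i (1 : k) ∈ (P.restrictScalars k).comap (linM (k := k)) := by
      rw [hP2]
      exact Submodule.mem_top
    rw [Submodule.mem_comap, Submodule.restrictScalars_mem] at h1
    rw [← lin_single]
    exact h1
  have h2 := Subspace.biUnion_ne_univ_of_top_notMem hs
  obtain ⟨v, hv⟩ := (Set.ne_univ_iff_exists_notMem _).1 h2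
  refine ⟨v, fun h => hv ?_, fun P hP h => hv ?_⟩
  · exact Set.mem_biUnion (Finset.mem_insert_self _ _) h
  · refine Set.mem_biUnion (Finset.mem_insert_of_mem (Finset.mem_image_of_mem _ (hT.mem_toFinset.2 hP))) ?_
    exact h

private theorem not_mm_X {P : Ideal (S k)} (hP : P ≠ ⊤) (h : P ≠ mm k) : ∃ i, X i ∉ P := by
  by_contra hc
  push Not at hc
  apply h
  have h1 : mm k ≤ P := Ideal.span_le.2 (by rintro _ ⟨i, rfl⟩; exact hc i)
  exact (mm_max.eq_of_le hP h1).symm

private theorem dim_mm : ringKrullDim (S k ⧸ mm k) = 0 :=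
  ringKrullDim_eq_zero_of_isField ((Ideal.Quotient.maximal_ideal_iff_isField_quotient _).1 mm_max)

private theorem chain3 {P Q q m : Ideal (S k)} (hP : P.IsPrime) (hQ : Q.IsPrime) (hq : q.IsPrime) (hm : m.IsPrime)
    (h1 : P < Q) (h2 : Q < q) (h3 : q < m) : (3 : WithBot ℕ∞) ≤ ringKrullDim (S k ⧸ P) := by
  rw [ringKrullDim_quotient]
  let a0 : PrimeSpectrum.zeroLocus (R := S k) P := ⟨⟨P, hP⟩, (PrimeSpectrum.mem_zeroLocus _ _).2 le_rfl⟩
  let a1 : PrimeSpectrum.zeroLocus (R := S k) P := ⟨⟨Q, hQ⟩, (PrimeSpectrum.mem_zeroLocus _ _).2 h1.le⟩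
  let a2 : PrimeSpectrum.zeroLocus (R := S k) P := ⟨⟨q, hq⟩, (PrimeSpectrum.mem_zeroLocus _ _).2 (h1.trans h2).le⟩
  let a3 : PrimeSpectrum.zeroLocus (R := S k) P := ⟨⟨m, hm⟩, (PrimeSpectrum.mem_zeroLocus _ _).2 ((h1.trans h2).trans h3).le⟩
  have b1 : a0 < a1 := h1
  have b2 : a1 < a2 := h2
  have b3 : a2 < a3 := h3
  let s : LTSeries (PrimeSpectrum.zeroLocus (R := S k) P) :=
    { length := 3
      toFun := ![a0, a1, a2, a3]
      step := by
        intro i
        fin_cases i
        · exact b1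
        · exact b2
        · exact b3 }
  exact Order.LTSeries.length_le_krullDim s

theorem exists_two_forms [Infinite k] {d : ℕ} {g : ℤ} {I : Ideal (S k)} (hI : IsCurve k d g I) :
    ∃ v w : Fin 4 → k, LinearIndependent k ![v, w] ∧
      ∃ N : ℕ, mm k ^ N ≤ I ⊔ Ideal.span {lin v, lin w} := by
  have hass : ∀ P ∈ I.minimalPrimes, ringKrullDim (S k ⧸ P) = 2 := by
    intro P hP
    refine hI.ass P ?_
    have h := Module.associatedPrimes.minimalPrimes_annihilator_subset_associatedPrimes (S k) (S k ⧸ I)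
    rw [Ideal.annihilator_quotient] at h
    exact h hP
  obtain ⟨v, hv0, hv⟩ := exists_avoid I.minimalPrimes (Ideal.finite_minimalPrimes_of_isNoetherianRing _ I) (fun P hP => by
    refine not_mm_X hP.1.1.ne_top ?_
    rintro rfl
    have h1 := hass _ hP
    rw [dim_mm] at h1
    exact absurd h1 (by norm_num)) ⊥ bot_ne_top
  have hv1 : v ≠ 0 := fun h => hv0 (by rw [h]; exact Submodule.zero_mem _)
  have hsp : Submodule.span k {v} ≠ ⊤ := by
    intro h
    have h1 : Module.finrank k (Submodule.span k {v}) = 1 := finrank_span_singleton hv1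
    rw [h, finrank_top, Module.finrank_fin_fun] at h1
    omega
  obtain ⟨w, hw0, hw⟩ := exists_avoid {Q | Q ∈ (I ⊔ Ideal.span {lin v}).minimalPrimes ∧ Q ≠ mm k}
    ((Ideal.finite_minimalPrimes_of_isNoetherianRing _ _).subset fun _ h => h.1)
    (fun Q hQ => not_mm_X hQ.1.1.1.ne_top hQ.2) (Submodule.span k {v}) hsp
  refine ⟨v, w, ?_, ?_⟩
  · rw [LinearIndependent.pair_iff' hv1]
    intro a ha
    apply hw0
    rw [← ha]
    exact Submodule.smul_mem _ _ (Submodule.mem_span_singleton_self v)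
  · have hmin : ∀ q ∈ (I ⊔ Ideal.span {lin v, lin w}).minimalPrimes, q = mm k := by
      intro q hq
      have hqp := hq.1.1
      have hqm : q ≤ mm k := le_mm hqp (min_homog (J_homog hI.hom v w) hq)
      have hvq : lin v ∈ q := hq.1.2 (Ideal.mem_sup_right (Ideal.subset_span (Set.mem_insert _ _)))
      have hwq : lin w ∈ q := hq.1.2 (Ideal.mem_sup_right (Ideal.subset_span (Set.mem_insert_of_mem _ rfl)))
      have hJ1 : I ⊔ Ideal.span {lin v} ≤ q :=
        sup_le (le_sup_left.trans hq.1.2) ((Ideal.span_singleton_le_iff_mem _).2 hvq)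
      obtain ⟨Q, hQ, hQq⟩ := Ideal.exists_minimalPrimes_le hJ1
      have hQp := hQ.1.1
      have hIQ : I ≤ Q := le_sup_left.trans hQ.1.2
      obtain ⟨P, hP, hPQ⟩ := Ideal.exists_minimalPrimes_le hIQ
      have hvQ : lin v ∈ Q := hQ.1.2 (Ideal.mem_sup_right (Ideal.subset_span rfl))
      have hPQ' : P < Q := lt_of_le_of_ne hPQ fun h => hv P hP (h ▸ hvQ)
      by_cases hQm : Q = mm k
      · exact le_antisymm hqm (hQm ▸ hQq)
      · have hQq' : Q < q := lt_of_le_of_ne hQq fun h => hw Q ⟨hQ, hQm⟩ (h ▸ hwq)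
        by_contra hne
        have h3 := chain3 hP.1.1 hQp hqp mm_max.isPrime hPQ' hQq' (lt_of_le_of_ne hqm hne)
        rw [hass P hP] at h3
        exact absurd h3 (by norm_num)
    have hrad : mm k ≤ (I ⊔ Ideal.span {lin v, lin w}).radical := by
      rw [← Ideal.sInf_minimalPrimes]
      exact le_sInf fun q hq => (hmin q hq).ge
    exact Ideal.exists_pow_le_of_le_radical_of_fg hrad (idealOfVars_fg (Fin 4) k)

end MP_06793c_ag
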