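import Pool.Agent.Lib.MP_06793c_ag.Line

/-!
Moving two linear forms to coordinates.
-/

namespace MP_06793c_ag

open MvPolynomial

universe u

variable {k : Type u} [Field k]

private theorem Move_sub (M : Matrix (Fin 4) (Fin 4) k) (v : Fin 4 → k) :
    sub M (lin v) = lin (Matrix.vecMul v M) := by
  have h1 : ∀ c : k, sub M (C c : S k) = (C c : S k) := by
    intro c
    simp [sub]
  have h2 : ∀ i : Fin 4, sub M (X i : S k) = ∑ j, (C (M i j) * X j : S k) := by
    intro i
    simp [sub]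
  unfold lin
  rw [map_sum]
  simp only [map_mul, h1, h2, Finset.mul_sum]
  rw [Finset.sum_comm]
  refine Finset.sum_congr rfl fun j _ => ?_
  rw [Matrix.vecMul, dotProduct, map_sum, Finset.sum_mul]
  refine Finset.sum_congr rfl fun i _ => ?_
  rw [map_mul, mul_assoc]

private theorem Move_lin (a : Fin 4) : lin (Pi.single a (1 : k)) = (X a : S k) := by
  unfold lin
  rw [Finset.sum_eq_single a]
  · simp
  · intro j _ hj
    rw [Pi.single_eq_of_ne hj]
    simp
  · intro h
    exact absurd (Finset.mem_univ a) h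

private theorem Move_ext {n : ℕ} (hn : n < 4) {u : Fin n → Fin 4 → k} (h : LinearIndependent k u) :
    ∃ x : Fin 4 → k, LinearIndependent k (Fin.cons x u : Fin (n + 1) → Fin 4 → k) := by
  by_contra hcon
  push Not at hcon
  have h1 : Submodule.span k (Set.range u) = ⊤ := by
    rw [eq_top_iff]
    intro x _
    by_contra hx
    exact hcon x (linearIndependent_finCons.2 ⟨h, hx⟩)
  have h2 := finrank_range_le_card (R := k) u
  rw [Set.finrank, h1, finrank_top, Module.finrank_fin_fun, Fintype.card_fin] at h2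
  omega

private theorem Move_perm (a b : Fin 4) (hab : a ≠ b) : ∃ σ : Equiv.Perm (Fin 4), σ a = 2 ∧ σ b = 3 := by
  have h1 : Equiv.swap a 2 b ≠ 2 := by
    intro h
    have h2 : Equiv.swap a 2 b = Equiv.swap a 2 a := by rw [h, Equiv.swap_apply_left]
    exact hab ((Equiv.swap a 2).injective h2).symm
  refine ⟨(Equiv.swap a 2).trans (Equiv.swap (Equiv.swap a 2 b) 3), ?_, ?_⟩
  · rw [Equiv.trans_apply, Equiv.swap_apply_left]
    exact Equiv.swap_apply_of_ne_of_ne h1.symm (by decide)
  · rw [Equiv.trans_apply, Equiv.swap_apply_left]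

/-- Two independent linear forms can be moved to `X a`, `X b`. -/
theorem exists_matrix {v w : Fin 4 → k} (h : LinearIndependent k ![v, w]) (a b : Fin 4)
    (hab : a ≠ b) : ∃ M : Matrix (Fin 4) (Fin 4) k, IsUnit M.det ∧
      sub M (lin v) = X a ∧ sub M (lin w) = X b := by
  obtain ⟨x, hx⟩ := Move_ext (by omega) h
  obtain ⟨y, hy⟩ := Move_ext (by omega) hx
  obtain ⟨σ, ha, hb⟩ := Move_perm a b hab
  obtain ⟨B, hB⟩ : ∃ B : Matrix (Fin 4) (Fin 4) k, B = fun i => (Fin.cons y (Fin.cons x ![v, w]) : Fin 4 → Fin 4 → k) (σ i) :=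
    ⟨_, rfl⟩
  have hBi : LinearIndependent k B.row := by
    rw [hB]
    exact hy.comp σ σ.injective
  have hu : IsUnit B := Matrix.linearIndependent_rows_iff_isUnit.1 hBi
  have hd : IsUnit B.det := (Matrix.isUnit_iff_isUnit_det B).1 hu
  have hBa : B a = v := by
    rw [hB]
    show (Fin.cons y (Fin.cons x ![v, w]) : Fin 4 → Fin 4 → k) (σ a) = v
    rw [ha]
    rfl
  have hBb : B b = w := by
    rw [hB]
    show (Fin.cons y (Fin.cons x ![v, w]) : Fin 4 → Fin 4 → k) (σ b) = w
    rw [hb]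
    rfl
  have key : ∀ i, Matrix.vecMul (B i) B⁻¹ = Pi.single i 1 := by
    intro i
    have h1 : B * B⁻¹ = 1 := Matrix.mul_nonsing_inv B hd
    have h2 : Matrix.vecMul (B i) B⁻¹ = (B * B⁻¹) i := by
      ext j
      rfl
    rw [h2, h1]
    ext j
    rw [Matrix.one_apply, Pi.single_apply]
    simp only [eq_comm]
  refine ⟨B⁻¹, ?_, ?_, ?_⟩
  · rw [Matrix.isUnit_nonsing_inv_det_iff]
    exact hd
  · rw [Move_sub, ← hBa, key, Move_lin]
  · rw [Move_sub, ← hBb, key, Move_lin]

/-- A line avoiding the curve may be moved to `X a = X b = 0`. -/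
theorem exists_line [Infinite k] {d : ℕ} {g : ℤ} {I : Ideal (S k)} (hI : IsCurve k d g I)
    (a b : Fin 4) (hab : a ≠ b) : ∃ M : Matrix (Fin 4) (Fin 4) k, IsUnit M.det ∧
      ∃ N : ℕ, mm k ^ N ≤ tr M I ⊔ Ideal.span {X a, X b} := by
  obtain ⟨v, w, h, N, hN⟩ := exists_two_forms hI
  obtain ⟨M, hM, h1, h2⟩ := exists_matrix h a b hab
  refine ⟨M, hM, N, ?_⟩
  have h3 := Ideal.map_mono (f := sub M) hN
  rw [sub_mm M hM N, Ideal.map_sup, Ideal.map_span, Set.image_pair, h1, h2] at h3
  exact h3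

end MP_06793c_ag
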