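import Pool.Agent.Lib.MP_06793c_ag.Defs

/-!
Existence of `k`-points.
-/

namespace MP_06793c_ag

open MvPolynomial

universe u

variable {k : Type u} [Field k]

theorem exists_point [IsAlgClosed k] {A : Type u} [CommRing A] [IsDomain A] [Algebra k A]
    [Algebra.FiniteType k A] (f : A) (hf : f ≠ 0) : ∃ φ : A →ₐ[k] k, φ f ≠ 0 := by
  have h0 : Submonoid.powers f ≤ nonZeroDivisors A :=
    powers_le_nonZeroDivisors_of_noZeroDivisors hf
  have hinj : Function.Injective (algebraMap A (Localization.Away f)) :=
    IsLocalization.injective (Localization.Away f) h0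
  have : Nontrivial (Localization.Away f) := hinj.nontrivial
  have : Algebra.FiniteType A (Localization.Away f) := inferInstance
  have : Algebra.FiniteType k (Localization.Away f) :=
    Algebra.FiniteType.trans (S := A) inferInstance inferInstance
  obtain ⟨m, hm⟩ := Ideal.exists_maximal (Localization.Away f)
  let _ : Field (Localization.Away f ⧸ m) := Ideal.Quotient.field m
  have : Algebra.FiniteType k (Localization.Away f ⧸ m) := inferInstance
  have : Module.Finite k (Localization.Away f ⧸ m) :=
    finite_of_finite_type_of_isJacobsonRing k (Localization.Away f ⧸ m)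
  have : Algebra.IsIntegral k (Localization.Away f ⧸ m) := Algebra.IsIntegral.of_finite _ _
  have hb : Function.Bijective (algebraMap k (Localization.Away f ⧸ m)) :=
    IsAlgClosed.algebraMap_bijective_of_isIntegral
  let e : k ≃ₐ[k] (Localization.Away f ⧸ m) := AlgEquiv.ofBijective (Algebra.ofId k _) hb
  let ψ : A →ₐ[k] (Localization.Away f ⧸ m) :=
    (Ideal.Quotient.mkₐ k m).comp (IsScalarTower.toAlgHom k A (Localization.Away f))
  refine ⟨(e.symm : (Localization.Away f ⧸ m) →ₐ[k] k).comp ψ, ?_⟩
  intro h
  have h1 : e.symm (ψ f) = 0 := h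
  have h2 : ψ f = 0 := (map_eq_zero_iff e.symm e.symm.injective).1 h1
  have h3 : IsUnit (algebraMap A (Localization.Away f) f) :=
    IsLocalization.Away.algebraMap_isUnit f
  have h4 : IsUnit (ψ f) := h3.map (Ideal.Quotient.mkₐ k m)
  rw [h2] at h4
  exact not_isUnit_zero h4

end MP_06793c_ag
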