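import Pool.Agent.Lib.MP_06793c_ag.Chain

/-!
The commutative semigroup of connected components.
-/

namespace MP_06793c_ag

open MvPolynomial

universe u

variable (k : Type u) [Field k]

/-- All locally Cohen-Macaulay curves in `P^3`, of all degrees and genera (as saturated
homogeneous ideals). -/
def Curves : Type u := {I : Ideal (S k) // ∃ (d : ℕ) (g : ℤ), IsCurve k d g I}

variable {k}

/-- The degree of a curve. -/
noncomputable def Curves.d (C : Curves k) : ℕ := C.2.choose

/-- The genus of a curve. -/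
noncomputable def Curves.g (C : Curves k) : ℤ := C.2.choose_spec.choose

theorem Curves.isCurve (C : Curves k) : IsCurve k C.d C.g C.1 := C.2.choose_spec.choose_spec

theorem Curves.type_eq (C : Curves k) {d : ℕ} {g : ℤ} (h : IsCurve k d g C.1) :
    C.d = d ∧ C.g = g := type_unique C.isCurve h

variable (k)

/-- Two curves are in the same component if they have the same degree and genus and lie in the
same connected component of `H_{d,g}`. -/
def compSetoid : Setoid (Curves k) where
  r C D := ∃ (d : ℕ) (g : ℤ), SameComp k d g C.1 D.1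
  iseqv := by
    refine ⟨fun C => ⟨C.d, C.g, sameComp_refl C.isCurve⟩, ?_, ?_⟩
    · rintro C D ⟨d, g, h⟩
      exact ⟨d, g, sameComp_symm h⟩
    · rintro C D E ⟨d, g, h⟩ ⟨d', g', h'⟩
      obtain ⟨rfl, rfl⟩ := type_unique (sameComp_right h) h'.1
      exact ⟨d, g, sameComp_trans h h'⟩

/-- The set of all connected components of all the schemes `H_{d,g}`. -/
def Comps : Type u := Quotient (compSetoid k)

variable {k}

/-- The component of a curve. -/
def cl (C : Curves k) : Comps k := Quotient.mk (compSetoid k) C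

theorem cl_eq {C D : Curves k} : cl C = cl D ↔ ∃ (d : ℕ) (g : ℤ), SameComp k d g C.1 D.1 :=
  Quotient.eq (r := compSetoid k)

/-- The union of two disjoint curves. -/
noncomputable def union (C D : Curves k) (h : Dis k C.1 D.1) : Curves k :=
  ⟨C.1 ⊓ D.1, C.d + D.d, C.g + D.g - 1, isCurve_inf C.isCurve D.isCurve h⟩

/-- Translates. -/
noncomputable def trc (M : Matrix (Fin 4) (Fin 4) k) (hM : IsUnit M.det) (C : Curves k) :
    Curves k := ⟨tr M C.1, C.d, C.g, isCurve_tr C.isCurve M hM⟩

theorem cl_trc (M : Matrix (Fin 4) (Fin 4) k) (hM : IsUnit M.det) (C : Curves k) :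
    cl (trc M hM C) = cl C :=
  cl_eq.mpr ⟨C.d, C.g, sameComp_symm (sameComp_of_oneFam (oneFam_tr C.isCurve M hM))⟩

theorem union_cl [IsAlgClosed k] {C C' D D' : Curves k} (hC : cl C = cl C') (hD : cl D = cl D')
    (h : Dis k C.1 D.1) (h' : Dis k C'.1 D'.1) : cl (union C D h) = cl (union C' D' h') := by
  obtain ⟨d, g, h1⟩ := cl_eq.mp hC
  obtain ⟨d', g', h2⟩ := cl_eq.mp hD
  exact cl_eq.mpr ⟨d + d', g + g' - 1, sameComp_inf h1 h2 h h'⟩

/-- In every component there is a curve disjoint from a given one. -/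
theorem exists_rep [IsAlgClosed k] (C D : Curves k) :
    ∃ D' : Curves k, cl D' = cl D ∧ Dis k C.1 D'.1 := by
  have : Infinite k := IsAlgClosed.instInfinite
  obtain ⟨M, hM, hd⟩ := exists_dis C.isCurve D.isCurve
  exact ⟨trc M hM D, cl_trc M hM D, hd⟩

/-- The sum of two components. -/
noncomputable def mulc [IsAlgClosed k] (x y : Comps k) : Comps k :=
  Quotient.liftOn₂ x y
    (fun C D => cl (union C (exists_rep C D).choose (exists_rep C D).choose_spec.2)) (by
      intro C D C' D' h h'
      refine union_cl (cl_eq.mpr h) ?_ _ _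
      rw [(exists_rep C D).choose_spec.1, (exists_rep C' D').choose_spec.1]
      exact cl_eq.mpr h')

theorem mulc_cl [IsAlgClosed k] (C D : Curves k) (h : Dis k C.1 D.1) :
    mulc (cl C) (cl D) = cl (union C D h) :=
  union_cl rfl (exists_rep C D).choose_spec.1 _ _

theorem mulc_comm [IsAlgClosed k] (x y : Comps k) : mulc x y = mulc y x := by
  induction x using Quotient.inductionOn with
  | _ C =>
  induction y using Quotient.inductionOn with
  | _ D =>
  obtain ⟨D', h1, h2⟩ := exists_rep C D
  change mulc (cl C) (cl D) = mulc (cl D) (cl C)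
  rw [← h1, mulc_cl C D' h2, mulc_cl D' C (dis_symm h2)]
  refine congrArg cl (Subtype.ext ?_)
  exact inf_comm _ _

theorem mulc_assoc [IsAlgClosed k] (x y z : Comps k) :
    mulc (mulc x y) z = mulc x (mulc y z) := by
  induction x using Quotient.inductionOn with
  | _ C =>
  induction y using Quotient.inductionOn with
  | _ D =>
  induction z using Quotient.inductionOn with
  | _ E =>
  change mulc (mulc (cl C) (cl D)) (cl E) = mulc (cl C) (mulc (cl D) (cl E))
  obtain ⟨D', h1, h2⟩ := exists_rep C D
  obtain ⟨E', h3, h4⟩ := exists_rep (union C D' h2) E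
  have m1 : mm k ^ 0 = ⊤ := by simp
  have h5 : Dis k C.1 E'.1 := by
    obtain ⟨N, hN⟩ := h4
    exact ⟨N, hN.trans (sup_le_sup_right inf_le_left _)⟩
  have h6 : Dis k D'.1 E'.1 := by
    obtain ⟨N, hN⟩ := h4
    exact ⟨N, hN.trans (sup_le_sup_right inf_le_right _)⟩
  have h7 : Dis k C.1 (union D' E' h6).1 := dis_symm (dis_inf (dis_symm h2) (dis_symm h5))
  rw [← h1, ← h3, mulc_cl C D' h2, mulc_cl (union C D' h2) E' h4, mulc_cl D' E' h6,
    mulc_cl C (union D' E' h6) h7]
  refine congrArg cl (Subtype.ext ?_)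
  exact inf_assoc _ _ _

/-- The degree and the Euler characteristic `χ(O_C) = 1 - g` of the curves in a component. -/
noncomputable def typ (x : Comps k) : ℕ × ℤ :=
  Quotient.liftOn x (fun C => (C.d, 1 - C.g)) (by
    intro C D h
    obtain ⟨d, g, h⟩ := h
    obtain ⟨h1, h2⟩ := C.type_eq h.1
    obtain ⟨h3, h4⟩ := D.type_eq (sameComp_right h)
    simp [h1, h2, h3, h4])

theorem typ_cl (C : Curves k) : typ (cl C) = (C.d, 1 - C.g) := rfl

theorem typ_mulc [IsAlgClosed k] (x y : Comps k) : typ (mulc x y) = typ x + typ y := by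
  induction x using Quotient.inductionOn with
  | _ C =>
  induction y using Quotient.inductionOn with
  | _ D =>
  change typ (mulc (cl C) (cl D)) = typ (cl C) + typ (cl D)
  obtain ⟨D', h1, h2⟩ := exists_rep C D
  rw [← h1, mulc_cl C D' h2, typ_cl, typ_cl, typ_cl]
  obtain ⟨h3, h4⟩ := (union C D' h2).type_eq (isCurve_inf C.isCurve D'.isCurve h2)
  rw [h3, h4]
  ext <;> simp
  ring

theorem conn_iff : (∀ (d : ℕ) (g : ℤ), Conn k d g) ↔ Function.Injective (typ (k := k)) := by
  constructor
  · intro h x y
    induction x using Quotient.inductionOn with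
    | _ C =>
    induction y using Quotient.inductionOn with
    | _ D =>
    intro hxy
    change typ (cl C) = typ (cl D) at hxy
    change cl C = cl D
    rw [typ_cl, typ_cl, Prod.mk.injEq] at hxy
    obtain ⟨h1, h2⟩ := hxy
    have h3 : C.g = D.g := by linarith
    refine cl_eq.mpr ⟨C.d, C.g, h C.d C.g _ _ C.isCurve ?_⟩
    rw [h1, h3]; exact D.isCurve
  · intro h d g I J hI hJ
    let C : Curves k := ⟨I, d, g, hI⟩
    let D : Curves k := ⟨J, d, g, hJ⟩
    have h1 := C.type_eq (d := d) (g := g) hI
    have h2 := D.type_eq (d := d) (g := g) hJ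
    have h3 : cl C = cl D := h (by rw [typ_cl, typ_cl, h1.1, h1.2, h2.1, h2.2])
    obtain ⟨d', g', h4⟩ := cl_eq.mp h3
    obtain ⟨rfl, rfl⟩ := type_unique hI h4.1
    exact h4

end MP_06793c_ag
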