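import Pool.Agent.Lib.MP_06793c_ag.Defs

/-!
Linear substitutions: functoriality.
-/

namespace MP_06793c_ag

open MvPolynomial

universe u

variable {k : Type u} [Field k]

section aux

attribute [local instance] MvPolynomial.gradedAlgebra

private theorem isHom_iff {A : Type u} [CommRing A] (I : Ideal (S A)) :
    IsHom I ↔ Ideal.IsHomogeneous (homogeneousSubmodule (Fin 4) A) I := by
  constructor
  · intro h n p hp
    have := h p hp n
    rwa [← decomposition.decompose'_apply] at this
  · intro h p hp n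
    have := h n hp
    rwa [← decomposition.decompose'_apply]

private theorem isHom_of_span {A : Type u} [CommRing A] (s : Set (S A))
    (hs : ∀ p ∈ s, ∃ n, p ∈ deg A n) : IsHom (Ideal.span s) := by
  rw [isHom_iff]
  exact Ideal.homogeneous_span _ _ hs

private theorem isHom_span_eq {A : Type u} [CommRing A] {I : Ideal (S A)} (h : IsHom I) :
    I = Ideal.span {p | p ∈ I ∧ ∃ n, p ∈ deg A n} := by
  refine le_antisymm ?_ (Ideal.span_le.2 fun p hp => hp.1)
  intro p hp
  rw [← sum_homogeneousComponent p]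
  refine Ideal.sum_mem _ fun i _ => Ideal.subset_span ⟨h p hp i, i, ?_⟩
  exact homogeneousComponent_mem i p

private theorem isHom_mapg {A B : Type u} [CommRing A] [CommRing B] (g : S A →+* S B)
    (hg : ∀ n p, p ∈ deg A n → g p ∈ deg B n) {I : Ideal (S A)} (h : IsHom I) :
    IsHom (I.map g) := by
  rw [isHom_span_eq h, Ideal.map_span]
  refine isHom_of_span _ ?_
  rintro _ ⟨p, ⟨_, n, hn⟩, rfl⟩
  exact ⟨n, hg n p hn⟩

private theorem isHom_mul' {A : Type u} [CommRing A] {F G : Ideal (S A)} (hF : IsHom F)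
    (hG : IsHom G) : IsHom (F * G) := by
  rw [isHom_iff] at *
  exact hF.mul hG

private theorem isHom_sup' {A : Type u} [CommRing A] {F G : Ideal (S A)} (hF : IsHom F)
    (hG : IsHom G) : IsHom (F ⊔ G) := by
  rw [isHom_iff] at *
  exact hF.sup hG

end aux

private theorem sub_C {A : Type u} [CommRing A] [Algebra k A] (M : Matrix (Fin 4) (Fin 4) A)
    (a : k) : sub M (C a) = C (algebraMap k A a) := by
  simp [sub]

private theorem sub_X {A : Type u} [CommRing A] [Algebra k A] (M : Matrix (Fin 4) (Fin 4) A)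
    (i : Fin 4) : sub (k := k) M (X i) = ∑ j, C (M i j) * X j := by
  simp [sub]

private theorem sub_comp (M N : Matrix (Fin 4) (Fin 4) k) :
    (sub N).comp (sub M) = sub (k := k) (M * N) := by
  refine MvPolynomial.ringHom_ext ?_ ?_
  · intro a
    simp only [RingHom.comp_apply, sub_C]
    rfl
  · intro i
    have hC : ∀ a : k, sub (k := k) N (C a) = C a := fun a => sub_C N a
    simp only [RingHom.comp_apply, sub_X, map_sum, map_mul, hC, Matrix.mul_apply, Finset.mul_sum,
      Finset.sum_mul]
    rw [Finset.sum_comm]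
    refine Finset.sum_congr rfl fun j _ => Finset.sum_congr rfl fun l _ => ?_
    ring

private theorem sub_one : sub (k := k) (1 : Matrix (Fin 4) (Fin 4) k) = RingHom.id (S k) := by
  refine MvPolynomial.ringHom_ext ?_ ?_
  · intro a
    rw [sub_C]
    rfl
  · intro i
    rw [sub_X, Finset.sum_eq_single i]
    · simp
    · intro j _ hj
      rw [Matrix.one_apply_ne (Ne.symm hj)]
      simp
    · intro h
      exact absurd (Finset.mem_univ i) h

/-- The fibre of a translate is the translate by the specialised matrix. -/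
theorem fib_tr {A : Type u} [CommRing A] [Algebra k A] (M : Matrix (Fin 4) (Fin 4) A)
    (J : Ideal (S k)) (φ : A →ₐ[k] k) : fib φ (tr M J) = tr (M.map φ) J := by
  unfold fib tr
  rw [Ideal.map_map]
  congr 1
  refine MvPolynomial.ringHom_ext ?_ ?_
  · intro a
    rw [RingHom.comp_apply, sub_C, sub_C, map_C]
    simp
  · intro i
    rw [RingHom.comp_apply, sub_X, sub_X, map_sum]
    refine Finset.sum_congr rfl fun j _ => ?_
    simp

/-- Images of forms of degree `n` are forms of degree `n`. -/
theorem sub_homog {A : Type u} [CommRing A] [Algebra k A] (M : Matrix (Fin 4) (Fin 4) A)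
    {p : S k} {n : ℕ} (hp : p ∈ deg k n) : sub M p ∈ deg A n := by
  have hp' : p.IsHomogeneous n := (mem_homogeneousSubmodule n p).1 hp
  refine (mem_homogeneousSubmodule n _).2 ?_
  have := hp'.eval₂ ((C : A →+* S A).comp (algebraMap k A)) (fun i => ∑ j, C (M i j) * X j)
    (n := 1) (fun r => isHomogeneous_C _ _)
    (fun i => IsHomogeneous.sum _ _ _ fun j _ => isHomogeneous_C_mul_X _ _)
  rw [one_mul] at this
  exact this

theorem isHom_tr {A : Type u} [CommRing A] [Algebra k A] (M : Matrix (Fin 4) (Fin 4) A)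
    {J : Ideal (S k)} (hJ : IsHom J) : IsHom (tr M J) :=
  isHom_mapg (sub M) (fun _ _ hp => sub_homog M hp) hJ

theorem isHom_mul {A : Type u} [CommRing A] {F G : Ideal (S A)} (hF : IsHom F) (hG : IsHom G) :
    IsHom (F * G) := isHom_mul' hF hG

theorem isHom_sup {A : Type u} [CommRing A] {F G : Ideal (S A)} (hF : IsHom F) (hG : IsHom G) :
    IsHom (F ⊔ G) := isHom_sup' hF hG

theorem isHom_inf {A : Type u} [CommRing A] {F G : Ideal (S A)} (hF : IsHom F) (hG : IsHom G) :
    IsHom (F ⊓ G) := fun p hp n => ⟨hF p hp.1 n, hG p hp.2 n⟩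

/-- Base change of a homogeneous ideal. -/
theorem isHom_map {A B : Type u} [CommRing A] [CommRing B] (f : A →+* B) {F : Ideal (S A)}
    (hF : IsHom F) : IsHom (F.map (MvPolynomial.map f)) := by
  refine isHom_mapg (MvPolynomial.map f) (fun n p hp => ?_) hF
  have hp' : p.IsHomogeneous n := (mem_homogeneousSubmodule n p).1 hp
  exact (mem_homogeneousSubmodule n _).2 (hp'.map f)

theorem fib_mul {A : Type u} [CommRing A] [Algebra k A] (F G : Ideal (S A)) (φ : A →ₐ[k] k) :
    fib φ (F * G) = fib φ F * fib φ G := by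
  simp only [fib, Ideal.map_mul]

theorem fib_sup {A : Type u} [CommRing A] [Algebra k A] (F G : Ideal (S A)) (φ : A →ₐ[k] k) :
    fib φ (F ⊔ G) = fib φ F ⊔ fib φ G := by
  simp only [fib, Ideal.map_sup]

/-- Fibre of a base change along `A → B`. -/
theorem fib_map {A B : Type u} [CommRing A] [Algebra k A] [CommRing B] [Algebra k B]
    (f : A →ₐ[k] B) (F : Ideal (S A)) (φ : B →ₐ[k] k) :
    fib φ (F.map (MvPolynomial.map (f : A →+* B))) = fib (φ.comp f) F := by
  unfold fib
  rw [Ideal.map_map]
  congr 1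
  refine MvPolynomial.ringHom_ext ?_ ?_
  · intro a
    simp
  · intro i
    simp

/-- Fibre of a constant family. -/
theorem fib_const {A : Type u} [CommRing A] [Algebra k A] (J : Ideal (S k)) (φ : A →ₐ[k] k) :
    fib φ (J.map (MvPolynomial.map (algebraMap k A))) = J := by
  unfold fib
  rw [Ideal.map_map]
  have : (MvPolynomial.map (φ : A →+* k)).comp (MvPolynomial.map (algebraMap k A))
      = RingHom.id (S k) := by
    refine MvPolynomial.ringHom_ext ?_ ?_
    · intro a
      simp
    · intro i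
      simp
  rw [this, Ideal.map_id]

theorem tr_one (J : Ideal (S k)) : tr (1 : Matrix (Fin 4) (Fin 4) k) J = J := by
  unfold tr
  rw [sub_one, Ideal.map_id]

theorem tr_tr (M N : Matrix (Fin 4) (Fin 4) k) (J : Ideal (S k)) :
    tr N (tr M J) = tr (M * N) J := by
  unfold tr
  rw [Ideal.map_map, sub_comp]

/-- An invertible substitution as a ring automorphism. -/
noncomputable def subEquiv (M : Matrix (Fin 4) (Fin 4) k) (hM : IsUnit M.det) :
    S k ≃+* S k := by
  refine RingEquiv.ofRingHom (sub M) (sub M⁻¹) ?_ ?_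
  · rw [sub_comp, Matrix.nonsing_inv_mul M hM, sub_one]
  · rw [sub_comp, Matrix.mul_nonsing_inv M hM, sub_one]

theorem subEquiv_apply (M : Matrix (Fin 4) (Fin 4) k) (hM : IsUnit M.det) (p : S k) :
    subEquiv M hM p = sub M p := rfl

private theorem sub_mm_le (M : Matrix (Fin 4) (Fin 4) k) : (mm k).map (sub M) ≤ mm k := by
  unfold mm idealOfVars
  rw [Ideal.map_span, Ideal.span_le]
  rintro _ ⟨_, ⟨i, rfl⟩, rfl⟩
  rw [sub_X]
  exact Ideal.sum_mem _ fun j _ => Ideal.mul_mem_left _ _ (Ideal.subset_span ⟨j, rfl⟩)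

theorem sub_mm (M : Matrix (Fin 4) (Fin 4) k) (hM : IsUnit M.det) (n : ℕ) :
    (mm k ^ n).map (sub M) = mm k ^ n := by
  rw [Ideal.map_pow]
  congr 1
  refine le_antisymm (sub_mm_le M) ?_
  have h1 : (mm k).map (sub M⁻¹) ≤ mm k := sub_mm_le M⁻¹
  have h2 := Ideal.map_mono (f := sub M) h1
  rw [Ideal.map_map, sub_comp, Matrix.nonsing_inv_mul M hM, sub_one, Ideal.map_id] at h2
  exact h2

theorem dis_tr (M : Matrix (Fin 4) (Fin 4) k) (hM : IsUnit M.det) {I J : Ideal (S k)}
    (h : Dis k I J) : Dis k (tr M I) (tr M J) := by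
  obtain ⟨N, hN⟩ := h
  refine ⟨N, ?_⟩
  have h2 := Ideal.map_mono (f := sub M) hN
  rw [sub_mm M hM, Ideal.map_sup] at h2
  exact h2

end MP_06793c_ag
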