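import Pool.Agent.Lib.MP_06793c_ag.Open
import Pool.Agent.Lib.MP_06793c_ag.Point
import Pool.Agent.Lib.MP_06793c_ag.Agr
import Pool.Agent.Lib.MP_06793c_ag.Inf
import Pool.Agent.Lib.MP_06793c_ag.CurveTr

/-!
The universal translate of a curve, multiplied with a family of curves.
-/

namespace MP_06793c_ag

open MvPolynomial

universe u

variable {k : Type u} [Field k]

/-- Polynomial ring in the entries of a universal `4 × 4` matrix. -/
abbrev RR (A : Type u) [CommRing A] : Type u := MvPolynomial (Fin 4 × Fin 4) A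

/-- The universal matrix. -/
noncomputable def GG (A : Type u) [CommRing A] : Matrix (Fin 4) (Fin 4) (RR A) :=
  Matrix.of fun i j => X (i, j)

instance finiteType_RR (A : Type u) [CommRing A] [Algebra k A] [Algebra.FiniteType k A] :
    Algebra.FiniteType k (RR A) := by
  have : Algebra.FiniteType A (RR A) := inferInstance
  exact Algebra.FiniteType.trans (S := A) inferInstance inferInstance

/-- The inclusion of the base. -/
noncomputable def inc (A : Type u) [CommRing A] [Algebra k A] : A →ₐ[k] RR A :=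
  IsScalarTower.toAlgHom k A (RR A)

/-- The point of the universal space with coordinates `φ` and `M`. -/
noncomputable def pt {A : Type u} [CommRing A] [Algebra k A] (φ : A →ₐ[k] k)
    (M : Matrix (Fin 4) (Fin 4) k) : RR A →ₐ[k] k :=
  MvPolynomial.aevalTower φ (fun p : Fin 4 × Fin 4 => M p.1 p.2)

theorem pt_inc {A : Type u} [CommRing A] [Algebra k A] (φ : A →ₐ[k] k)
    (M : Matrix (Fin 4) (Fin 4) k) : (pt φ M).comp (inc A) = φ := by
  ext a
  simp [pt, inc]

theorem pt_GG {A : Type u} [CommRing A] [Algebra k A] (φ : A →ₐ[k] k)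
    (M : Matrix (Fin 4) (Fin 4) k) : (GG A).map (pt φ M) = M := by
  ext i j
  simp [pt, GG]

/-- The universal family: the product of the family `F` and the universal translate of `J`. -/
noncomputable def UU {A : Type u} [CommRing A] [Algebra k A] (F : Ideal (S A))
    (J : Ideal (S k)) : Ideal (S (RR A)) :=
  F.map (MvPolynomial.map ((inc (k := k) A : A →ₐ[k] RR A) : A →+* RR A)) * tr (GG A) J

theorem fib_UU {A : Type u} [CommRing A] [Algebra k A] (F : Ideal (S A))
    (J : Ideal (S k)) (ψ : RR A →ₐ[k] k) :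
    fib ψ (UU F J) = fib (ψ.comp (inc A)) F * tr ((GG A).map ψ) J := by
  rw [UU, fib_mul, fib_map, fib_tr]

/-- Around a point where the two curves are disjoint the universal family is a family of
curves. -/
theorem fam_step {d₁ d₂ : ℕ} {g₁ g₂ : ℤ} {A : Type u} [CommRing A]
    [Algebra k A] {h : A} {F : Ideal (S A)} (hF : IsFam k d₁ g₁ A h F) {J : Ideal (S k)}
    (hJ : IsCurve k d₂ g₂ J) {φ : A →ₐ[k] k} (hφ : φ h ≠ 0) {M : Matrix (Fin 4) (Fin 4) k}
    (hM : IsUnit M.det) {I : Ideal (S k)} (hI : Agree k (fib φ F) I) (hd : Dis k I (tr M J)) :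
    ∃ H : RR A, pt φ M H ≠ 0 ∧ IsFam k (d₁ + d₂) (g₁ + g₂ - 1) (RR A) H (UU F J) := by
  have h1 : Dis k (fib φ F) (tr M J) := dis_of_agree (agree_symm hI) (agree_refl _) hd
  obtain ⟨N, hN⟩ := h1
  set FR : Ideal (S (RR A)) :=
    F.map (MvPolynomial.map ((inc (k := k) A : A →ₐ[k] RR A) : A →+* RR A)) with hFR
  have hom1 : IsHom FR := isHom_map _ hF.1
  have hom2 : IsHom (tr (GG A) J) := isHom_tr _ hJ.hom
  have key : ∀ ψ : RR A →ₐ[k] k,
      fib ψ (FR ⊔ tr (GG A) J) = fib (ψ.comp (inc A)) F ⊔ tr ((GG A).map ψ) J := by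
    intro ψ
    rw [fib_sup, hFR, fib_map, fib_tr]
  obtain ⟨f, hf, hf'⟩ := open_dis (FR ⊔ tr (GG A) J) (isHom_sup hom1 hom2) (pt φ M) N (by
    rw [key, pt_inc, pt_GG]; exact hN)
  refine ⟨inc (k := k) A h * (GG A).det * f, ?_, isHom_mul hom1 hom2, ?_⟩
  · rw [map_mul, map_mul]
    refine mul_ne_zero (mul_ne_zero ?_ ?_) hf
    · have := congrArg (fun χ : A →ₐ[k] k => χ h) (pt_inc φ M)
      simp only [AlgHom.comp_apply] at this
      rw [this]; exact hφ
    · have : pt φ M (GG A).det = ((GG A).map (pt φ M)).det := by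
        have := RingHom.map_det ((pt φ M : RR A →ₐ[k] k) : RR A →+* k) (GG A)
        simpa [RingHom.mapMatrix_apply] using this
      rw [this, pt_GG]
      exact hM.ne_zero
  · intro ψ hψ
    rw [map_mul, map_mul] at hψ
    have h2 : ψ f ≠ 0 := right_ne_zero_of_mul hψ
    have h3 : ψ (GG A).det ≠ 0 := right_ne_zero_of_mul (left_ne_zero_of_mul hψ)
    have h4 : ψ (inc (k := k) A h) ≠ 0 := left_ne_zero_of_mul (left_ne_zero_of_mul hψ)
    obtain ⟨K, hK, hK'⟩ := hF.2 (ψ.comp (inc A)) (by simpa [AlgHom.comp_apply] using h4)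
    have h5 : IsUnit ((GG A).map ψ).det := by
      have : ψ (GG A).det = ((GG A).map ψ).det := by
        have := RingHom.map_det ((ψ : RR A →ₐ[k] k) : RR A →+* k) (GG A)
        simpa [RingHom.mapMatrix_apply] using this
      rw [← this]
      exact h3.isUnit
    have h6 := isCurve_tr hJ _ h5
    have h7 : Dis k (fib (ψ.comp (inc A)) F) (tr ((GG A).map ψ) J) :=
      ⟨N, by rw [← key]; exact hf' ψ h2⟩
    have h8 : Dis k K (tr ((GG A).map ψ) J) := dis_of_agree hK' (agree_refl _) h7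
    refine ⟨K ⊓ tr ((GG A).map ψ) J, isCurve_inf hK h6 h8, ?_⟩
    rw [fib_UU]
    exact agree_mul hK' (agree_refl _) h8

theorem oneFam_symm {d : ℕ} {g : ℤ} {I J : Ideal (S k)} (h : OneFam k d g I J) :
    OneFam k d g J I := by
  obtain ⟨hI, hJ, A, i1, i2, i3, i4, a, F, hF, φ, ψ, h1, h2, h3, h4⟩ := h
  exact ⟨hJ, hI, A, i1, i2, i3, i4, a, F, hF, ψ, φ, h2, h1, h4, h3⟩

theorem sameComp_right {d : ℕ} {g : ℤ} {I J : Ideal (S k)} (h : SameComp k d g I J) :
    IsCurve k d g J := by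
  obtain ⟨hI, hc⟩ := h
  induction hc with
  | refl => exact hI
  | tail _ h2 _ => exact h2.2.1

theorem sameComp_refl {d : ℕ} {g : ℤ} {I : Ideal (S k)} (h : IsCurve k d g I) :
    SameComp k d g I I := ⟨h, Relation.ReflTransGen.refl⟩

theorem sameComp_trans {d : ℕ} {g : ℤ} {I J K : Ideal (S k)} (h : SameComp k d g I J)
    (h' : SameComp k d g J K) : SameComp k d g I K := ⟨h.1, h.2.trans h'.2⟩

theorem sameComp_symm {d : ℕ} {g : ℤ} {I J : Ideal (S k)} (h : SameComp k d g I J) :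
    SameComp k d g J I := by
  refine ⟨sameComp_right h, ?_⟩
  have h2 := h.2
  clear h
  induction h2 with
  | refl => exact Relation.ReflTransGen.refl
  | tail _ h3 ih => exact (Relation.ReflTransGen.single (oneFam_symm h3)).trans ih

theorem sameComp_of_oneFam {d : ℕ} {g : ℤ} {I J : Ideal (S k)} (h : OneFam k d g I J) :
    SameComp k d g I J := ⟨h.1, Relation.ReflTransGen.single h⟩

/-- Two disjoint pairs in the universal family give curves in the same component. -/
theorem two_point [IsAlgClosed k] {d₁ d₂ : ℕ} {g₁ g₂ : ℤ} {A : Type u} [CommRing A] [IsDomain A]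
    [Algebra k A] [Algebra.FiniteType k A] {h : A} {F : Ideal (S A)}
    (hF : IsFam k d₁ g₁ A h F) {J : Ideal (S k)} (hJ : IsCurve k d₂ g₂ J)
    {φ φ' : A →ₐ[k] k} (hφ : φ h ≠ 0) (hφ' : φ' h ≠ 0)
    {M M' : Matrix (Fin 4) (Fin 4) k} (hM : IsUnit M.det) (hM' : IsUnit M'.det)
    {I I' : Ideal (S k)} (hIc : IsCurve k d₁ g₁ I) (hIc' : IsCurve k d₁ g₁ I')
    (hI : Agree k (fib φ F) I) (hI' : Agree k (fib φ' F) I')
    (hd : Dis k I (tr M J)) (hd' : Dis k I' (tr M' J)) :
    SameComp k (d₁ + d₂) (g₁ + g₂ - 1) (I ⊓ tr M J) (I' ⊓ tr M' J) := by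
  obtain ⟨H, hH, hfam⟩ := fam_step hF hJ hφ hM hI hd
  obtain ⟨H', hH', hfam'⟩ := fam_step hF hJ hφ' hM' hI' hd'
  have hne : H * H' ≠ 0 := by
    intro h0
    rcases mul_eq_zero.mp h0 with h0 | h0
    · exact hH (by rw [h0, map_zero])
    · exact hH' (by rw [h0, map_zero])
  obtain ⟨ψ, hψ⟩ := exists_point (k := k) (H * H') hne
  rw [map_mul] at hψ
  obtain ⟨L, hL, hLa⟩ := hfam.2 ψ (left_ne_zero_of_mul hψ)
  have c1 : IsCurve k (d₁ + d₂) (g₁ + g₂ - 1) (I ⊓ tr M J) :=
    isCurve_inf hIc (isCurve_tr hJ M hM) hd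
  have c2 : IsCurve k (d₁ + d₂) (g₁ + g₂ - 1) (I' ⊓ tr M' J) :=
    isCurve_inf hIc' (isCurve_tr hJ M' hM') hd'
  have a1 : Agree k (fib (pt φ M) (UU F J)) (I ⊓ tr M J) := by
    rw [fib_UU, pt_inc, pt_GG]
    exact agree_mul hI (agree_refl _) hd
  have a2 : Agree k (fib (pt φ' M') (UU F J)) (I' ⊓ tr M' J) := by
    rw [fib_UU, pt_inc, pt_GG]
    exact agree_mul hI' (agree_refl _) hd'
  have s1 : OneFam k (d₁ + d₂) (g₁ + g₂ - 1) (I ⊓ tr M J) L :=
    ⟨c1, hL, RR A, inferInstance, inferInstance, inferInstance, inferInstance, H, UU F J, hfam,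
      pt φ M, ψ, hH, left_ne_zero_of_mul hψ, a1, hLa⟩
  have s2 : OneFam k (d₁ + d₂) (g₁ + g₂ - 1) L (I' ⊓ tr M' J) :=
    ⟨hL, c2, RR A, inferInstance, inferInstance, inferInstance, inferInstance, H', UU F J, hfam',
      ψ, pt φ' M', right_ne_zero_of_mul hψ, hH', hLa, a2⟩
  exact sameComp_trans (sameComp_of_oneFam s1) (sameComp_of_oneFam s2)

/-- A curve and its translates lie in the same component. -/
theorem oneFam_tr {d : ℕ} {g : ℤ} {J : Ideal (S k)} (hJ : IsCurve k d g J)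
    (M : Matrix (Fin 4) (Fin 4) k) (hM : IsUnit M.det) : OneFam k d g J (tr M J) := by
  refine ⟨hJ, isCurve_tr hJ M hM, RR k, inferInstance, inferInstance, inferInstance,
    inferInstance, (GG k).det, tr (GG k) J, ⟨isHom_tr _ hJ.hom, ?_⟩, pt (AlgHom.id k k) 1,
    pt (AlgHom.id k k) M, ?_, ?_, ?_, ?_⟩
  · intro ψ hψ
    have h5 : IsUnit ((GG k).map ψ).det := by
      have : ψ (GG k).det = ((GG k).map ψ).det := by
        have := RingHom.map_det ((ψ : RR k →ₐ[k] k) : RR k →+* k) (GG k)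
        simpa [RingHom.mapMatrix_apply] using this
      rw [← this]
      exact hψ.isUnit
    exact ⟨_, isCurve_tr hJ _ h5, by rw [fib_tr]; exact agree_refl _⟩
  · have : pt (AlgHom.id k k) 1 (GG k).det = ((GG k).map (pt (AlgHom.id k k) 1)).det := by
      have := RingHom.map_det ((pt (AlgHom.id k k) 1 : RR k →ₐ[k] k) : RR k →+* k) (GG k)
      simpa [RingHom.mapMatrix_apply] using this
    rw [this, pt_GG]
    simp
  · have : pt (AlgHom.id k k) M (GG k).det = ((GG k).map (pt (AlgHom.id k k) M)).det := by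
      have := RingHom.map_det ((pt (AlgHom.id k k) M : RR k →ₐ[k] k) : RR k →+* k) (GG k)
      simpa [RingHom.mapMatrix_apply] using this
    rw [this, pt_GG]
    exact hM.ne_zero
  · rw [fib_tr, pt_GG, tr_one]; exact agree_refl _
  · rw [fib_tr, pt_GG]; exact agree_refl _

/-- The constant family. -/
theorem isFam_const {d : ℕ} {g : ℤ} {I : Ideal (S k)} (hI : IsCurve k d g I) :
    IsFam k d g k (1 : k) (I.map (MvPolynomial.map (algebraMap k k))) := by
  refine ⟨isHom_map _ hI.hom, fun φ _ => ⟨I, hI, ?_⟩⟩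
  rw [fib_const]; exact agree_refl _

/-- Moving the second curve by translations. -/
theorem move_right [IsAlgClosed k] {d₁ d₂ : ℕ} {g₁ g₂ : ℤ} {I J : Ideal (S k)}
    (hI : IsCurve k d₁ g₁ I) (hJ : IsCurve k d₂ g₂ J) {M M' : Matrix (Fin 4) (Fin 4) k}
    (hM : IsUnit M.det) (hM' : IsUnit M'.det) (hd : Dis k I (tr M J))
    (hd' : Dis k I (tr M' J)) :
    SameComp k (d₁ + d₂) (g₁ + g₂ - 1) (I ⊓ tr M J) (I ⊓ tr M' J) := by
  have h1 : Agree k (fib (AlgHom.id k k) (I.map (MvPolynomial.map (algebraMap k k)))) I := by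
    rw [fib_const]; exact agree_refl _
  exact two_point (isFam_const hI) hJ (φ := AlgHom.id k k) (φ' := AlgHom.id k k)
    (by simp) (by simp) hM hM' hI hI h1 h1 hd hd'

end MP_06793c_ag
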